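import Pool.Agent.Helper31.ISO.Rows

/-!
# MP_35e092_an: series with real digits; lower bounds for the product of the two zeros
-/

set_option autoImplicit false
set_option maxRecDepth 100000

namespace Pool.Agent.Iso

/-- the rows cover the ratios in `(lo, hi]` with products less than `Q` -/
def cov31 (Q lo : ℕ) : ℕ → List (ℕ × ℕ × ℕ × ℕ × ℕ) → Bool
  | hi, [] => Nat.ble hi lo
  | hi, r :: L => Nat.ble hi lo ||
      (Nat.ble hi r.2.1 && Nat.ble (Q * 10000 ^ 2) (r.2.2.1 ^ 2 * r.1) && cov31 Q lo r.1 L)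

theorem cov31_spec {Q lo : ℕ} {x : ℝ} (hx : (lo : ℝ) < x) : ∀ (L : List (ℕ × ℕ × ℕ × ℕ × ℕ)) (hi : ℕ), x ≤ hi →
    cov31 Q lo hi L = true → ∃ r ∈ L, (r.1 : ℝ) ≤ x ∧ x ≤ r.2.1 ∧ Q * 10000 ^ 2 ≤ r.2.2.1 ^ 2 * r.1 := by
  intro L
  induction L with
  | nil =>
    intro hi hxhi h
    exfalso
    have h1 : hi ≤ lo := Nat.le_of_ble_eq_true h
    have h2 : (hi : ℝ) ≤ lo := by exact_mod_cast h1
    linarith
  | cons r L ih =>
    intro hi hxhi h
    simp only [cov31, Bool.or_eq_true, Bool.and_eq_true, Nat.ble_eq] at h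
    rcases h with h | ⟨⟨h1, h2⟩, h3⟩
    · exfalso
      have h2 : (hi : ℝ) ≤ lo := by exact_mod_cast h
      linarith
    · by_cases hr : (r.1 : ℝ) ≤ x
      · refine ⟨r, List.mem_cons_self .., hr, hxhi.trans (by exact_mod_cast h1), h2⟩
      · obtain ⟨s, hs, hs'⟩ := ih r.1 (le_of_lt (not_le.1 hr)) h3
        exact ⟨s, List.mem_cons_of_mem _ hs, hs'⟩

/-- a double zero `z`, a zero `ρ z` -/
theorem low31 {L : List (ℕ × ℕ × ℕ × ℕ × ℕ)} (hL : ok31 L = true) {Q lo hi : ℕ} (hcov : cov31 Q lo hi L = true)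
    {a : ℕ → ℝ} (h0 : a 0 = 1) (hb : ∀ n, |a n| ≤ 1) {z ρ : ℝ} (hz : 0 < z) (hz1 : z < 1) (hρ : ρ ≠ 1)
    (hρlo : (lo : ℝ) < 10000 * ρ) (hρhi : 10000 * ρ ≤ hi) (hρz : ρ * z < 1)
    (h1 : ev a z = 0) (h2 : dv a z = 0) (h3 : ev a (ρ * z) = 0) : (Q : ℝ) / 10000 ≤ ρ * z ^ 2 := by
  by_contra hcon
  push Not at hcon
  obtain ⟨r, hr, hr1, hr2, hr3⟩ := cov31_spec hρlo L hi hρhi hcov
  have hrow : chk31 r.1 r.2.1 r.2.2.1 r.2.2.2.1 r.2.2.2.2 = true := by
    unfold ok31 at hL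
    exact List.all_eq_true.1 hL r hr
  have hρ0 : 0 < ρ := by
    have : (0 : ℝ) ≤ lo := Nat.cast_nonneg lo
    linarith
  have hr3' : (Q : ℝ) * 10000 ^ 2 ≤ (r.2.2.1 : ℝ) ^ 2 * r.1 := by exact_mod_cast hr3
  have hzA : z ≤ (r.2.2.1 : ℝ) / 10000 := by
    rw [le_div_iff₀ (by norm_num)]
    by_contra hlt
    push Not at hlt
    have h4 : (r.2.2.1 : ℝ) ^ 2 < (z * 10000) ^ 2 := pow_lt_pow_left₀ hlt (Nat.cast_nonneg _) two_ne_zero
    have h5 : (r.2.2.1 : ℝ) ^ 2 * r.1 ≤ (z * 10000) ^ 2 * (10000 * ρ) :=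
      mul_le_mul h4.le hr1 (Nat.cast_nonneg _) (by positivity)
    have h6 : (z * 10000) ^ 2 * (10000 * ρ) = 10000 ^ 3 * (ρ * z ^ 2) := by ring
    have h7 : 10000 ^ 3 * (ρ * z ^ 2) < 10000 ^ 3 * ((Q : ℝ) / 10000) :=
      mul_lt_mul_of_pos_left hcon (by norm_num)
    have h8 : (10000 : ℝ) ^ 3 * ((Q : ℝ) / 10000) = Q * 10000 ^ 2 := by ring
    linarith
  exact excl31 hrow h0 hb hz hzA hρ0.le (by rw [div_le_iff₀ (by norm_num)]; linarith)
    (by rw [le_div_iff₀ (by norm_num)]; linarith) hρ hz1 hρz h1 h2 (by rw [h3, mul_zero])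

/-- for `g ≥ q.1/10000` the product `g l` is at least `q.2/10000` -/
def tab31 : List (ℕ × ℕ) :=
  [(5200, 4608), (5220, 4621), (5240, 4625), (5260, 4629), (5280, 4633), (5300, 4636), (5320, 4640), (5340,
  4642), (5360, 4642), (5380, 4646), (5400, 4650), (5420, 4653), (5440, 4654), (5460, 4656), (5480, 4660),
  (5500, 4665), (5520, 4673), (5540, 4678), (5560, 4685), (5580, 4691), (5600, 4698), (5620, 4705), (5640,
  4712), (5660, 4719), (5680, 4724), (5700, 4732), (5720, 4738), (5740, 4744), (5760, 4750), (5780, 4759),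
  (5800, 4766), (5820, 4773), (5840, 4780), (5860, 4787), (5880, 4791), (5900, 4798), (5920, 4805), (5940,
  4812), (5960, 4818), (5980, 4824), (6000, 4832), (6020, 4837), (6040, 4843), (6060, 4850), (6080, 4858),
  (6100, 4865), (6120, 4871), (6140, 4879), (6160, 4886), (6180, 4892), (6200, 4900), (6220, 4907), (6240,
  4914), (6260, 4920), (6280, 4926), (6300, 4933), (6320, 4941), (6340, 4947), (6360, 4953), (6380, 4960),
  (6400, 4968), (6420, 4975), (6440, 4980), (6460, 4988), (6480, 4993), (6500, 5000)]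

/-- the table is correct -/
theorem tab31_ok : tab31.all (fun q => Nat.blt 0 q.2 && cov31 q.2 (q.1 ^ 2 / q.2) 10010 rows0) = true := by
  decide +kernel

theorem below31 {a : ℕ → ℝ} (h0 : a 0 = 1) (hb : ∀ n, |a n| ≤ 1) {g l : ℝ} (hg : 0 < g) (hgl : g < l) (hl : l < 1)
    (h1 : ev a g = 0) (h2 : ev a l = 0) (h3 : dv a l = 0) :
    ∀ q ∈ tab31, (q.1 : ℝ) / 10000 ≤ g → (q.2 : ℝ) / 10000 ≤ g * l := by
  intro q hq hqg
  have hl0 : 0 < l := hg.trans hgl
  have hcheck := List.all_eq_true.1 tab31_ok q hq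
  rw [Bool.and_eq_true, Nat.blt_eq] at hcheck
  obtain ⟨hQ0, hcov⟩ := hcheck
  by_contra hcon
  push Not at hcon
  have hQ0' : (0 : ℝ) < q.2 := by exact_mod_cast hQ0
  have e1 : g / l * l = g := div_mul_cancel₀ _ hl0.ne'
  have e2 : g / l * l ^ 2 = g * l := by
    rw [pow_two, ← mul_assoc, e1]
  have hlo : ((q.1 ^ 2 / q.2 : ℕ) : ℝ) < 10000 * (g / l) := by
    have h4 : ((q.1 ^ 2 / q.2 : ℕ) : ℝ) ≤ (q.1 : ℝ) ^ 2 / q.2 := by
      have := @Nat.cast_div_le ℝ _ _ _ (q.1 ^ 2) q.2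
      push_cast at this
      exact this
    refine lt_of_le_of_lt h4 ?_
    rw [div_lt_iff₀ hQ0']
    have h5 : (q.1 : ℝ) ≤ g * 10000 := by
      rw [div_le_iff₀ (by norm_num)] at hqg
      exact hqg
    have h6 : (q.1 : ℝ) ^ 2 ≤ (g * 10000) ^ 2 := pow_le_pow_left₀ (Nat.cast_nonneg _) h5 2
    refine lt_of_le_of_lt h6 ?_
    have h7 : g * l * 10000 < q.2 := by
      rw [lt_div_iff₀ (by norm_num)] at hcon
      exact hcon
    have h8 : (g * 10000) ^ 2 = 10000 * (g / l) * (g * l * 10000) := by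
      field_simp
    rw [h8]
    exact mul_lt_mul_of_pos_left h7 (by positivity)
  have := low31 rows0_ok hcov h0 hb (z := l) (ρ := g / l) hl0 hl (by
      rw [Ne, div_eq_one_iff_eq hl0.ne']
      exact hgl.ne) hlo (by
      have : g / l < 1 := (div_lt_one hl0).2 hgl
      push_cast
      linarith) (by rw [e1]; linarith) h2 h3 (by rw [e1]; exact h1)
  rw [e2] at this
  linarith

theorem cov_rows1 : cov31 5000 9990 11990 rows1 = true := by decide +kernel

theorem double_small31 {a : ℕ → ℝ} (h0 : a 0 = 1) (hb : ∀ n, |a n| ≤ 1) {g l : ℝ} (hg : 0 < g) (hgl : g < l)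
    (hl : l < 1) (h1 : ev a g = 0) (h1' : dv a g = 0) (h2 : ev a l = 0) : 1 / 2 ≤ g * l := by
  have e1 : l / g * g = l := div_mul_cancel₀ _ hg.ne'
  have e2 : l / g * g ^ 2 = g * l := by
    rw [pow_two, ← mul_assoc, e1, mul_comm]
  rcases le_or_gt (10000 * (l / g)) 11990 with h | h
  · have h3 : 1 < l / g := (one_lt_div hg).2 hgl
    have := low31 rows1_ok cov_rows1 h0 hb (z := g) (ρ := l / g) hg (hgl.trans hl) (ne_of_gt h3) (by
        push_cast
        linarith) (by push_cast; exact h) (by rw [e1]; exact hl) h1 h1' (by rw [e1]; exact h2)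
    rw [e2] at this
    norm_num at this
    linarith
  · by_contra hcon
    push Not at hcon
    have h3 : g ^ 2 < 0.646 ^ 2 := by
      have h4 : l / g * g ^ 2 < 1 / 2 := by rw [e2]; exact hcon
      have h5 : 0 < g ^ 2 := by positivity
      nlinarith
    have h4 : g < 0.646 := lt_of_pow_lt_pow_left₀ 2 (by norm_num) h3
    refine excl31 row_two_ok h0 hb (z := g) (ρ := 1 / 2) hg ?_ (by norm_num) (by norm_num) (by norm_num)
      (by norm_num) (hgl.trans hl) (by linarith) h1 h1' (by simp)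
    norm_num at h4 ⊢
    linarith

end Pool.Agent.Iso
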