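import Pool.Agent.Helper65.Conn.ModelC

/-!
# MP_35e092_an: soundness of the bound of a functional
-/

set_option autoImplicit false

namespace Pool.Agent.Helper65.Conn

/-- bounds for a nonnegative real number in the scale `D` -/
def Bd31 (l h : ℕ) (x : ℝ) : Prop := 0 ≤ x ∧ (l : ℝ) ≤ D * x ∧ D * x ≤ h

theorem acc_zero31 (X : Root) (f : Fn) (Gl Gh Pl Ph Dl Dh Rl Rh Hl Hh : ℕ) :
    acc X f 0 Gl Gh Pl Ph Dl Dh Rl Rh Hl Hh =
      (((f.E + f.E') * Gh) * X.T + ((f.A + f.A') * Ph + ((f.B + f.B') * Dh + (f.C + f.C') * Hh)) * X.U +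
        (((f.B + f.B') * Ph + (f.C + f.C') * Rh) * X.U1 + ((f.C + f.C') * Gh) * X.Q)) / D + 1 := rfl

theorem acc_succ31 (X : Root) (f : Fn) (J Gl Gh Pl Ph Dl Dh Rl Rh Hl Hh : ℕ) :
    ∃ Gl' Gh' Pl' Ph' Dl' Dh' Rl' Rh' Hl' Hh' : ℕ,
      Gl' = Gl * D / (X.a + X.da) ∧ Gh' = Gh * D / X.a + 1 ∧
      Pl' = Pl * D / (X.b + X.db) ∧ Ph' = Ph * D / X.b + 1 ∧
      Dl' = Pl + Dl * D / (X.b + X.db) ∧ Dh' = Ph + (Dh * D / X.b + 1) ∧
      Rl' = Gl + Rl * D / (X.b + X.db) ∧ Rh' = Gh + (Rh * D / X.b + 1) ∧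
      Hl' = Rl + Hl * D / (X.b + X.db) ∧ Hh' = Rh + (Hh * D / X.b + 1) ∧
      acc X f (J + 1) Gl Gh Pl Ph Dl Dh Rl Rh Hl Hh =
        (cond (Nat.ble
          (f.E * Gh' + f.A * Ph' + (f.B * Dh' + f.C * Hh') - (f.E' * Gl' + f.A' * Pl' + (f.B' * Dl' + f.C' * Hl')))
          (f.E' * Gh' + f.A' * Ph' + (f.B' * Dh' + f.C' * Hh') - (f.E * Gl' + f.A * Pl' + (f.B * Dl' + f.C * Hl'))))
          (f.E' * Gh' + f.A' * Ph' + (f.B' * Dh' + f.C' * Hh') - (f.E * Gl' + f.A * Pl' + (f.B * Dl' + f.C * Hl')))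
          (f.E * Gh' + f.A * Ph' + (f.B * Dh' + f.C * Hh') - (f.E' * Gl' + f.A' * Pl' + (f.B' * Dl' + f.C' * Hl')))) +
        acc X f J Gl' Gh' Pl' Ph' Dl' Dh' Rl' Rh' Hl' Hh' := by
  refine ⟨_, _, _, _, _, _, _, _, _, _, rfl, rfl, rfl, rfl, rfl, rfl, rfl, rfl, rfl, rfl, ?_⟩
  unfold acc
  simp only [force_eq]
  rfl

theorem div_le31 {m k : ℕ} {w r : ℝ} (hk : 0 < (k : ℝ)) (hw : 0 < w) (hwk : w ≤ k) (h : (m : ℝ) ≤ D * r) (hr : 0 ≤ r) :
    ((m * D / k : ℕ) : ℝ) ≤ D * (r * (D / w)) := by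
  have hD := Dpos
  have h1 : ((m * D / k : ℕ) : ℝ) ≤ ((m * D : ℕ) : ℝ) / k := Nat.cast_div_le
  refine h1.trans ?_
  rw [Nat.cast_mul, div_le_iff₀ hk]
  have h2 : (D : ℝ) * (r * (D / w)) * k = D * r * D * (k / w) := by field_simp
  rw [h2]
  have h3 : (1 : ℝ) ≤ k / w := by rw [one_le_div hw]; exact hwk
  have h4 : (m : ℝ) * D ≤ D * r * D := mul_le_mul_of_nonneg_right h hD.le
  have h5 : 0 ≤ (D : ℝ) * r * D := by positivity
  nlinarith

theorem le_div31 {m k : ℕ} {w r : ℝ} (hk : 0 < (k : ℝ)) (hw : (k : ℝ) ≤ w) (h : D * r ≤ m) (hr : 0 ≤ r) :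
    D * (r * (D / w)) ≤ ((m * D / k + 1 : ℕ) : ℝ) := by
  have hD := Dpos
  have hw0 : 0 < w := hk.trans_le hw
  have h1 : ((m * D : ℕ) : ℝ) / k ≤ ((m * D / k + 1 : ℕ) : ℝ) := by
    rw [div_le_iff₀ hk]
    have hk' : 0 < k := by exact_mod_cast hk
    have h2 : m * D ≤ (m * D / k + 1) * k := by
      have := Nat.lt_div_mul_add (a := m * D) (b := k) hk'
      rw [Nat.add_mul, one_mul]
      exact this.le
    exact_mod_cast h2
  refine le_trans ?_ h1
  rw [Nat.cast_mul, le_div_iff₀ hk]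
  have h2 : (D : ℝ) * (r * (D / w)) * k = D * r * D * (k / w) := by field_simp
  rw [h2]
  have h3 : (k : ℝ) / w ≤ 1 := by rw [div_le_one hw0]; exact hw
  have h4 : (D : ℝ) * r * D ≤ m * D := mul_le_mul_of_nonneg_right h hD.le
  have h5 : 0 ≤ (D : ℝ) * r * D := by positivity
  nlinarith

/-- division by a parameter `w / D` -/
theorem Bd31.div {l h a b : ℕ} {x w : ℝ} (hx : Bd31 l h x) (ha : 0 < (a : ℝ)) (h1 : (a : ℝ) ≤ w * D)
    (h2 : w * D ≤ (a : ℝ) + b) : Bd31 (l * D / (a + b)) (h * D / a + 1) (x / w) := by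
  have hD := Dpos
  have hw : 0 < w := by
    by_contra hcon
    have := mul_nonpos_of_nonpos_of_nonneg (not_lt.1 hcon) hD.le
    linarith
  have hwD : 0 < w * D := mul_pos hw hD
  have e : x / w = x * (D / (w * D)) := by field_simp
  refine ⟨div_nonneg hx.1 hw.le, ?_, ?_⟩
  · rw [e]
    exact div_le31 (by push_cast; linarith) hwD (by push_cast; exact h2) hx.2.1 hx.1
  · rw [e]
    exact le_div31 ha h1 hx.2.2 hx.1

theorem Bd31.add {l h l' h' : ℕ} {x y : ℝ} (hx : Bd31 l h x) (hy : Bd31 l' h' y) :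
    Bd31 (l + l') (h + h') (x + y) := by
  refine ⟨add_nonneg hx.1 hy.1, ?_, ?_⟩
  · rw [Nat.cast_add, mul_add]
    exact add_le_add hx.2.1 hy.2.1
  · rw [Nat.cast_add, mul_add]
    exact add_le_add hx.2.2 hy.2.2

theorem Bd31.smul {l h : ℕ} {x : ℝ} (hx : Bd31 l h x) (k : ℕ) : Bd31 (k * l) (k * h) (k * x) := by
  have hk : (0 : ℝ) ≤ k := Nat.cast_nonneg k
  refine ⟨mul_nonneg hk hx.1, ?_, ?_⟩
  · rw [Nat.cast_mul, show (D : ℝ) * (k * x) = k * (D * x) by ring]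
    exact mul_le_mul_of_nonneg_left hx.2.1 hk
  · rw [Nat.cast_mul, show (D : ℝ) * (k * x) = k * (D * x) by ring]
    exact mul_le_mul_of_nonneg_left hx.2.2 hk

theorem Bd31.sub_le {l h l' h' : ℕ} {x y : ℝ} (hx : Bd31 l h x) (hy : Bd31 l' h' y) :
    D * (x - y) ≤ ((h - l' : ℕ) : ℝ) := by
  have h1 : (h : ℝ) - l' ≤ ((h - l' : ℕ) : ℝ) := by
    rw [sub_le_iff_le_add]
    have : h ≤ h - l' + l' := by omega
    exact_mod_cast this
  have := hx.2.2
  have := hy.2.1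
  rw [mul_sub]
  linarith

theorem le_condmax31 (x y : ℕ) : x ≤ cond (Nat.ble x y) y x ∧ y ≤ cond (Nat.ble x y) y x := by
  cases h : Nat.ble x y with
  | true => exact ⟨Nat.le_of_ble_eq_true h, le_refl _⟩
  | false =>
    have : y < x := by
      by_contra hc
      rw [Nat.ble_eq_true_of_le (not_lt.1 hc)] at h
      exact Bool.noConfusion h
    exact ⟨le_refl _, this.le⟩

theorem Bd31.abs_le {l h l' h' : ℕ} {x y : ℝ} (hx : Bd31 l h x) (hy : Bd31 l' h' y) :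
    D * |x - y| ≤ ((cond (Nat.ble (h - l') (h' - l)) (h' - l) (h - l') : ℕ) : ℝ) := by
  have h1 := hx.sub_le hy
  have h2 := hy.sub_le hx
  obtain ⟨h3, h4⟩ := le_condmax31 (h - l') (h' - l)
  have h3' : ((h - l' : ℕ) : ℝ) ≤ ((cond (Nat.ble (h - l') (h' - l)) (h' - l) (h - l') : ℕ) : ℝ) := by
    exact_mod_cast h3
  have h4' : ((h' - l : ℕ) : ℝ) ≤ ((cond (Nat.ble (h - l') (h' - l)) (h' - l) (h - l') : ℕ) : ℝ) := by
    exact_mod_cast h4
  rcases abs_cases (x - y) with ⟨h5, _⟩ | ⟨h5, _⟩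
  · rw [h5]
    linarith
  · rw [h5, neg_sub]
    linarith

theorem acc_gen31 {X : Root} (G : X.Good) {al be : ℝ} (hp : X.In al be) (f : Fn) {y v u q c : ℕ → ℝ}
    (hc : ∀ n, |c n| ≤ 1)
    (hy : ∀ n, y (n + 1) = al * y n - c (n + 1)) (hv : ∀ n, v (n + 1) = be * v n - c (n + 1))
    (hu : ∀ n, u (n + 1) = be * (u n - be * v n)) (hq : ∀ n, q (n + 1) = al * (q n - u (n + 1)))
    (by1 : ∀ n, |D * y n| ≤ X.T) (bv : ∀ n, |D * v n| ≤ X.U) (bu : ∀ n, |D * u n| ≤ X.U1)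
    (bq : ∀ n, |D * q n| ≤ X.Q) : ∀ (J : ℕ) (Gl Gh Pl Ph Dl Dh Rl Rh Hl Hh : ℕ) (g p d r h : ℝ),
      Bd31 Gl Gh g → Bd31 Pl Ph p → Bd31 Dl Dh d → Bd31 Rl Rh r → Bd31 Hl Hh h → ∀ n : ℕ,
      |((f.E : ℝ) - f.E') * g * (D * y n) +
        (((f.A : ℝ) - f.A') * p + ((f.B : ℝ) - f.B') * d + ((f.C : ℝ) - f.C') * h) * (D * v n) +
        (((f.B : ℝ) - f.B') * p + ((f.C : ℝ) - f.C') * r) * (D * u n) +
        ((f.C : ℝ) - f.C') * g * (D * q n)| ≤ acc X f J Gl Gh Pl Ph Dl Dh Rl Rh Hl Hh := by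
  have hD := Dpos
  have habs : ∀ a b : ℕ, |(a : ℝ) - b| ≤ (a : ℝ) + b := by
    intro a b
    have ha : (0 : ℝ) ≤ a := Nat.cast_nonneg a
    have hb : (0 : ℝ) ≤ b := Nat.cast_nonneg b
    rw [_root_.abs_le]
    constructor <;> linarith
  obtain ⟨p1, p2, p3, p4⟩ := hp
  have hXa : (0 : ℝ) < X.a := hD.trans (by exact_mod_cast G.hDa)
  have hXb : (0 : ℝ) < X.b := hD.trans (by exact_mod_cast G.hDb)
  have hal : 0 < al := by
    by_contra hcon
    have := mul_nonpos_of_nonpos_of_nonneg (not_lt.1 hcon) hD.le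
    linarith
  have hbe : 0 < be := by
    by_contra hcon
    have := mul_nonpos_of_nonpos_of_nonneg (not_lt.1 hcon) hD.le
    linarith
  intro J
  induction J with
  | zero =>
    intro Gl Gh Pl Ph Dl Dh Rl Rh Hl Hh g p d r h hg hp' hd hr hh n
    rw [acc_zero31]
    set e : ℝ := (f.E : ℝ) - f.E' with he
    set a : ℝ := (f.A : ℝ) - f.A' with ha
    set b : ℝ := (f.B : ℝ) - f.B' with hb
    set k : ℝ := (f.C : ℝ) - f.C' with hk
    have hE := habs f.E f.E'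
    have hA := habs f.A f.A'
    have hB := habs f.B f.B'
    have hC := habs f.C f.C'
    rw [← he] at hE
    rw [← ha] at hA
    rw [← hb] at hB
    rw [← hk] at hC
    have hT0 : (0 : ℝ) ≤ X.T := Nat.cast_nonneg _
    have hU0 : (0 : ℝ) ≤ X.U := Nat.cast_nonneg _
    have hU10 : (0 : ℝ) ≤ X.U1 := Nat.cast_nonneg _
    have hQ0 : (0 : ℝ) ≤ X.Q := Nat.cast_nonneg _
    have hE0 : 0 ≤ (f.E : ℝ) + f.E' := (abs_nonneg _).trans hE
    have hA0 : 0 ≤ (f.A : ℝ) + f.A' := (abs_nonneg _).trans hA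
    have hB0 : 0 ≤ (f.B : ℝ) + f.B' := (abs_nonneg _).trans hB
    have hC0 : 0 ≤ (f.C : ℝ) + f.C' := (abs_nonneg _).trans hC
    have t1 : |e * g * (D * y n)| ≤ (f.E + f.E') * g * X.T := by
      rw [abs_mul, abs_mul, abs_of_nonneg hg.1]
      exact mul_le_mul (mul_le_mul_of_nonneg_right hE hg.1) (by1 n) (abs_nonneg _)
        (mul_nonneg hE0 hg.1)
    have t2 : |(a * p + b * d + k * h) * (D * v n)| ≤
        ((f.A + f.A') * p + (f.B + f.B') * d + (f.C + f.C') * h) * X.U := by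
      rw [abs_mul]
      refine mul_le_mul ?_ (bv n) (abs_nonneg _) (by
        have := mul_nonneg hA0 hp'.1
        have := mul_nonneg hB0 hd.1
        have := mul_nonneg hC0 hh.1
        linarith)
      have s1 : |a * p| ≤ (f.A + f.A') * p := by
        rw [abs_mul, abs_of_nonneg hp'.1]; exact mul_le_mul_of_nonneg_right hA hp'.1
      have s2 : |b * d| ≤ (f.B + f.B') * d := by
        rw [abs_mul, abs_of_nonneg hd.1]; exact mul_le_mul_of_nonneg_right hB hd.1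
      have s3 : |k * h| ≤ (f.C + f.C') * h := by
        rw [abs_mul, abs_of_nonneg hh.1]; exact mul_le_mul_of_nonneg_right hC hh.1
      have s4 := abs_add_le (a * p + b * d) (k * h)
      have s5 := abs_add_le (a * p) (b * d)
      linarith
    have t3 : |(b * p + k * r) * (D * u n)| ≤ ((f.B + f.B') * p + (f.C + f.C') * r) * X.U1 := by
      rw [abs_mul]
      refine mul_le_mul ?_ (bu n) (abs_nonneg _) (by
        have := mul_nonneg hB0 hp'.1
        have := mul_nonneg hC0 hr.1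
        linarith)
      have s1 : |b * p| ≤ (f.B + f.B') * p := by
        rw [abs_mul, abs_of_nonneg hp'.1]; exact mul_le_mul_of_nonneg_right hB hp'.1
      have s3 : |k * r| ≤ (f.C + f.C') * r := by
        rw [abs_mul, abs_of_nonneg hr.1]; exact mul_le_mul_of_nonneg_right hC hr.1
      have s4 := abs_add_le (b * p) (k * r)
      linarith
    have t4 : |k * g * (D * q n)| ≤ (f.C + f.C') * g * X.Q := by
      rw [abs_mul, abs_mul, abs_of_nonneg hg.1]
      exact mul_le_mul (mul_le_mul_of_nonneg_right hC hg.1) (bq n) (abs_nonneg _)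
        (mul_nonneg hC0 hg.1)
    have t5 := abs_add_le (e * g * (D * y n) + (a * p + b * d + k * h) * (D * v n) +
      (b * p + k * r) * (D * u n)) (k * g * (D * q n))
    have t6 := abs_add_le (e * g * (D * y n) + (a * p + b * d + k * h) * (D * v n))
      ((b * p + k * r) * (D * u n))
    have t7 := abs_add_le (e * g * (D * y n)) ((a * p + b * d + k * h) * (D * v n))
    set W : ℕ := ((f.E + f.E') * Gh) * X.T + ((f.A + f.A') * Ph + ((f.B + f.B') * Dh + (f.C + f.C') * Hh)) * X.U +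
        (((f.B + f.B') * Ph + (f.C + f.C') * Rh) * X.U1 + ((f.C + f.C') * Gh) * X.Q) with hW
    have t8 : (W : ℝ) / D ≤ ((W / D + 1 : ℕ) : ℝ) := by
      have := le_divN W
      have e1 : Nat.div W D = W / D := rfl
      rw [e1] at this
      push_cast
      linarith
    refine le_trans ?_ t8
    rw [le_div_iff₀ hD]
    have hWr : (W : ℝ) = ((f.E + f.E') * Gh) * X.T +
        ((f.A + f.A') * Ph + ((f.B + f.B') * Dh + (f.C + f.C') * Hh)) * X.U +
        (((f.B + f.B') * Ph + (f.C + f.C') * Rh) * X.U1 + ((f.C + f.C') * Gh) * X.Q) := by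
      rw [hW]; push_cast; ring
    have m1 : (f.E + f.E') * (D * g) * X.T ≤ (f.E + f.E') * Gh * X.T :=
      mul_le_mul_of_nonneg_right (mul_le_mul_of_nonneg_left hg.2.2 hE0) hT0
    have m2 : (f.A + f.A') * (D * p) * X.U ≤ (f.A + f.A') * Ph * X.U :=
      mul_le_mul_of_nonneg_right (mul_le_mul_of_nonneg_left hp'.2.2 hA0) hU0
    have m3 : (f.B + f.B') * (D * d) * X.U ≤ (f.B + f.B') * Dh * X.U :=
      mul_le_mul_of_nonneg_right (mul_le_mul_of_nonneg_left hd.2.2 hB0) hU0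
    have m4 : (f.C + f.C') * (D * h) * X.U ≤ (f.C + f.C') * Hh * X.U :=
      mul_le_mul_of_nonneg_right (mul_le_mul_of_nonneg_left hh.2.2 hC0) hU0
    have m5 : (f.B + f.B') * (D * p) * X.U1 ≤ (f.B + f.B') * Ph * X.U1 :=
      mul_le_mul_of_nonneg_right (mul_le_mul_of_nonneg_left hp'.2.2 hB0) hU10
    have m6 : (f.C + f.C') * (D * r) * X.U1 ≤ (f.C + f.C') * Rh * X.U1 :=
      mul_le_mul_of_nonneg_right (mul_le_mul_of_nonneg_left hr.2.2 hC0) hU10
    have m7 : (f.C + f.C') * (D * g) * X.Q ≤ (f.C + f.C') * Gh * X.Q :=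
      mul_le_mul_of_nonneg_right (mul_le_mul_of_nonneg_left hg.2.2 hC0) hQ0
    have hle : |e * g * (D * y n) + (a * p + b * d + k * h) * (D * v n) + (b * p + k * r) * (D * u n) +
        k * g * (D * q n)| ≤ (f.E + f.E') * g * X.T +
        ((f.A + f.A') * p + (f.B + f.B') * d + (f.C + f.C') * h) * X.U +
        ((f.B + f.B') * p + (f.C + f.C') * r) * X.U1 + (f.C + f.C') * g * X.Q := by linarith
    have hle2 := mul_le_mul_of_nonneg_right hle hD.le
    refine hle2.trans ?_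
    rw [hWr]
    linarith
  | succ J ih =>
    intro Gl Gh Pl Ph Dl Dh Rl Rh Hl Hh g p d r h hg hp' hd hr hh n
    obtain ⟨Gl', Gh', Pl', Ph', Dl', Dh', Rl', Rh', Hl', Hh', eGl, eGh, ePl, ePh, eDl, eDh, eRl, eRh, eHl, eHh,
      hacc⟩ := acc_succ31 X f J Gl Gh Pl Ph Dl Dh Rl Rh Hl Hh
    rw [hacc]
    have bg : Bd31 Gl' Gh' (g / al) := by rw [eGl, eGh]; exact hg.div hXa p1 p2
    have bp : Bd31 Pl' Ph' (p / be) := by rw [ePl, ePh]; exact hp'.div hXb p3 p4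
    have bd : Bd31 Dl' Dh' (p + d / be) := by rw [eDl, eDh]; exact hp'.add (hd.div hXb p3 p4)
    have br : Bd31 Rl' Rh' (g + r / be) := by rw [eRl, eRh]; exact hg.add (hr.div hXb p3 p4)
    have bh : Bd31 Hl' Hh' (r + h / be) := by rw [eHl, eHh]; exact hr.add (hh.div hXb p3 p4)
    have hI := ih Gl' Gh' Pl' Ph' Dl' Dh' Rl' Rh' Hl' Hh' _ _ _ _ _ bg bp bd br bh (n + 1)
    have hP := ((bg.smul f.E).add (bp.smul f.A)).add ((bd.smul f.B).add (bh.smul f.C))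
    have hN := ((bg.smul f.E').add (bp.smul f.A')).add ((bd.smul f.B').add (bh.smul f.C'))
    have hM := hP.abs_le hN
    set mx : ℕ := (cond (Nat.ble
          (f.E * Gh' + f.A * Ph' + (f.B * Dh' + f.C * Hh') - (f.E' * Gl' + f.A' * Pl' + (f.B' * Dl' + f.C' * Hl')))
          (f.E' * Gh' + f.A' * Ph' + (f.B' * Dh' + f.C' * Hh') - (f.E * Gl' + f.A * Pl' + (f.B * Dl' + f.C * Hl'))))
          (f.E' * Gh' + f.A' * Ph' + (f.B' * Dh' + f.C' * Hh') - (f.E * Gl' + f.A * Pl' + (f.B * Dl' + f.C * Hl')))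
          (f.E * Gh' + f.A * Ph' + (f.B * Dh' + f.C * Hh') - (f.E' * Gl' + f.A' * Pl' + (f.B' * Dl' + f.C' * Hl'))))
      with hmx
    set e : ℝ := (f.E : ℝ) - f.E' with he
    set a : ℝ := (f.A : ℝ) - f.A' with ha
    set b : ℝ := (f.B : ℝ) - f.B' with hb
    set k : ℝ := (f.C : ℝ) - f.C' with hk
    set F : ℝ := e * (g / al) + a * (p / be) + (b * (p + d / be) + k * (r + h / be)) with hF
    have hFe : (f.E : ℝ) * (g / al) + f.A * (p / be) + (f.B * (p + d / be) + f.C * (r + h / be)) -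
        (f.E' * (g / al) + f.A' * (p / be) + (f.B' * (p + d / be) + f.C' * (r + h / be))) = F := by
      rw [hF, he, ha, hb, hk]; ring
    rw [hFe] at hM
    have hid : e * g * (D * y n) + (a * p + b * d + k * h) * (D * v n) + (b * p + k * r) * (D * u n) +
        k * g * (D * q n) = D * F * c (n + 1) +
        (e * (g / al) * (D * y (n + 1)) +
        (a * (p / be) + b * (p + d / be) + k * (r + h / be)) * (D * v (n + 1)) +
        (b * (p / be) + k * (g + r / be)) * (D * u (n + 1)) + k * (g / al) * (D * q (n + 1))) := by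
      have hal' := hal.ne'
      have hbe' := hbe.ne'
      rw [hq n, hu n, hv n, hy n, hF]
      field_simp
      ring
    rw [hid]
    have h1 := abs_add_le (D * F * c (n + 1)) (e * (g / al) * (D * y (n + 1)) +
        (a * (p / be) + b * (p + d / be) + k * (r + h / be)) * (D * v (n + 1)) +
        (b * (p / be) + k * (g + r / be)) * (D * u (n + 1)) + k * (g / al) * (D * q (n + 1)))
    have h2 : |D * F * c (n + 1)| ≤ mx := by
      rw [abs_mul, abs_mul, abs_of_pos hD]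
      have h3 := mul_le_mul_of_nonneg_left (hc (n + 1)) (mul_nonneg hD.le (abs_nonneg F))
      linarith
    rw [Nat.cast_add]
    exact h1.trans (add_le_add h2 hI)

theorem acc_sound {X : Root} (G : X.Good) {al be : ℝ} (hp : X.In al be) {f : Fn} {J : ℕ}
    (hf : f.ok X J = true) {y v u q c : ℕ → ℝ} (hc : ∀ n, |c n| ≤ 1)
    (hy : ∀ n, y (n + 1) = al * y n - c (n + 1)) (hv : ∀ n, v (n + 1) = be * v n - c (n + 1))
    (hu : ∀ n, u (n + 1) = be * (u n - be * v n)) (hq : ∀ n, q (n + 1) = al * (q n - u (n + 1)))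
    (by1 : ∀ n, |D * y n| ≤ X.T) (bv : ∀ n, |D * v n| ≤ X.U) (bu : ∀ n, |D * u n| ≤ X.U1)
    (bq : ∀ n, |D * q n| ≤ X.Q) (n : ℕ) :
    |((f.E : ℝ) - f.E') * (D * y n) + ((f.A : ℝ) - f.A') * (D * v n) + ((f.B : ℝ) - f.B') * (D * u n) +
      ((f.C : ℝ) - f.C') * (D * q n)| ≤ f.c := by
  have h1 : acc X f J D D D D 0 0 0 0 0 0 ≤ f.c := Nat.le_of_ble_eq_true hf
  have h1' : ((acc X f J D D D D 0 0 0 0 0 0 : ℕ) : ℝ) ≤ f.c := by exact_mod_cast h1
  have b1 : Bd31 D D 1 := ⟨zero_le_one, by rw [mul_one], by rw [mul_one]⟩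
  have b0 : Bd31 0 0 0 := ⟨le_refl _, by simp, by simp⟩
  have h2 := acc_gen31 G hp f hc hy hv hu hq by1 bv bu bq J D D D D 0 0 0 0 0 0 1 1 0 0 0 b1 b1 b0 b0 b0 n
  refine le_trans (le_of_eq ?_) (h2.trans h1')
  congr 1
  ring

end Pool.Agent.Helper65.Conn
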