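import Pool.Agent.Helper31.ISO.Below
import Pool.Agent.Helper5.Iso.Main

/-!
# MP_35e092_an: an isolated point gives a series with a double zero at the larger point
-/

set_option autoImplicit false

namespace Pool.Agent.Iso

open Set

/-- two positive zeros are larger than one half -/
theorem half_lt31 {a : ℕ → ℝ} (ha : IsB a) {g l : ℝ} (hg : 0 < g) (hgl : g < l) (hl : l < 1)
    (h1 : ev a g = 0) (h2 : ev a l = 0) : 1 / 2 < g := by
  by_contra hcon
  push Not at hcon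
  have hg1 : g < 1 := hgl.trans hl
  have hl0 : 0 < l := hg.trans hgl
  have hsum : ∀ x : ℝ, 0 < x → x < 1 → ev a x = 0 → HasSum (fun n => (1 + a n) * x ^ n) (1 - x)⁻¹ := by
    intro x hx0 hx1 hx
    have s1 : HasSum (fun n => a n * x ^ n) 0 := by
      have := (summable_ev ha (by rwa [abs_of_pos hx0])).hasSum
      rwa [show (∑' n, a n * x ^ n) = 0 from hx] at this
    have s2 := (hasSum_geometric_of_lt_one hx0.le hx1).add s1
    rw [add_zero] at s2
    refine (congrArg (fun F : ℕ → ℝ => HasSum F _) ?_).mpr s2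
    funext n
    ring
  have hnn : ∀ n, 0 ≤ 1 + a n := by
    intro n
    rcases ha.2 n with h | h | h <;> rw [h] <;> norm_num
  have sg := hsum g hg hg1 h1
  have hle : (1 - g)⁻¹ ≤ 2 := by
    rw [inv_le_comm₀ (by linarith) (by norm_num)]
    linarith
  have hz : ∀ n, n ≠ 0 → 1 + a n = 0 := by
    intro n hn
    have h3 := sum_le_hasSum ({0, n} : Finset ℕ) (fun i _ => mul_nonneg (hnn i) (pow_nonneg hg.le i)) sg
    rw [Finset.sum_pair (Ne.symm hn), ha.1] at h3
    have h4 : (1 + a n) * g ^ n ≤ 0 := by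
      norm_num at h3
      linarith
    have h5 : 0 < g ^ n := pow_pos hg n
    have h6 := hnn n
    by_contra h7
    have h8 : 0 < 1 + a n := lt_of_le_of_ne h6 (Ne.symm h7)
    have := mul_pos h8 h5
    linarith
  have hval : ∀ x : ℝ, 0 < x → x < 1 → ev a x = 0 → x = 1 / 2 := by
    intro x hx0 hx1 hx
    have s1 := hsum x hx0 hx1 hx
    have s2 : HasSum (fun n => (1 + a n) * x ^ n) ((1 + a 0) * x ^ 0) :=
      hasSum_single 0 fun n hn => by rw [hz n hn, zero_mul]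
    have h3 := s1.unique s2
    rw [ha.1, pow_zero, mul_one, inv_eq_iff_eq_inv] at h3
    norm_num at h3
    linarith
  have e1 := hval g hg hg1 h1
  have e2 := hval l hl0 hl h2
  linarith

theorem not_near31 {p : ℝ × ℝ} (hp : IsIsolated p) : ¬ Near p.1 p.2 := by
  obtain ⟨hpN, U, hU, hUN⟩ := hp
  intro hnear
  have hpU : p ∈ U := by
    have : p ∈ U ∩ N := by rw [hUN]; exact mem_singleton p
    exact this.1
  obtain ⟨ε, hε, hball⟩ := Metric.isOpen_iff.1 hU p hpU
  obtain ⟨z', w', c1, c2, c3, c4, c5, b, c6, c7, c8⟩ := hnear ε hε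
  have hq : ((z', w') : ℝ × ℝ) ∈ U ∩ N := by
    refine ⟨hball ?_, c4, c5, Or.inl ⟨b, c6, c7, c8⟩⟩
    rw [Metric.mem_ball, Prod.dist_eq, max_lt_iff, Real.dist_eq, Real.dist_eq]
    exact ⟨c1, c2⟩
  rw [hUN] at hq
  have h : ((z', w') : ℝ × ℝ) = p := hq
  rcases c3 with c3 | c3
  · apply c3; rw [← h]
  · apply c3; rw [← h]

theorem off_diag31 {p : ℝ × ℝ} (hp : IsIsolated p) : p.1 ≠ p.2 := by
  obtain ⟨hpN, U, hU, hUN⟩ := hp
  intro hdiag
  have hpU : p ∈ U := by
    have : p ∈ U ∩ N := by rw [hUN]; exact mem_singleton p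
    exact this.1
  obtain ⟨ε, hε, hball⟩ := Metric.isOpen_iff.1 hU p hpU
  have hlt : |p.1| < 1 := hpN.1
  set s : ℝ := min (ε / 2) ((1 - |p.1|) / 2) with hs
  have hs0 : 0 < s := lt_min (by linarith) (by linarith)
  have hs1 : s ≤ ε / 2 := min_le_left _ _
  have hs2 : s ≤ (1 - |p.1|) / 2 := min_le_right _ _
  have hq : ((p.1 + s, p.1 + s) : ℝ × ℝ) ∈ U ∩ N := by
    have h1 : |p.1 + s| < 1 := by
      have := abs_add_le p.1 s
      rw [abs_of_pos hs0] at this
      linarith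
    refine ⟨hball ?_, h1, h1, Or.inr rfl⟩
    rw [Metric.mem_ball, Prod.dist_eq, max_lt_iff, Real.dist_eq, Real.dist_eq]
    constructor
    · simp only [add_sub_cancel_left]
      rw [abs_of_pos hs0]
      linarith
    · simp only [← hdiag, add_sub_cancel_left]
      rw [abs_of_pos hs0]
      linarith
  rw [hUN] at hq
  have h : ((p.1 + s, p.1 + s) : ℝ × ℝ) = p := hq
  have h2 := congrArg Prod.fst h
  dsimp only at h2
  linarith

/-- two positive distinct points -/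
theorem pos31 {a : ℕ → ℝ} (ha : IsB a) {g l : ℝ} (hg : 0 < g) (hgl : g < l) (hl : l < 1) (hp : g * l < 1 / 2)
    (h1 : ev a g = 0) (h2 : ev a l = 0) (hn : ¬ Near g l) : 1 / 2 < g ∧ dv a l = 0 := by
  refine ⟨half_lt31 ha hg hgl hl h1 h2, ?_⟩
  by_contra h3
  have hgb : |g| < 1 := by rw [abs_of_pos hg]; linarith
  have hlb : |l| < 1 := by rw [abs_of_pos (hg.trans hgl)]; exact hl
  by_cases h4 : dv a g = 0
  · have := double_small31 ha.1 ha.abs_le hg hgl hl h1 h4 h2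
    linarith
  · exact hn (near_of_perturb ha hgb hlb h1 h2 h4 (Or.inl h3))

theorem reduce31 {p : ℝ × ℝ} (hp : IsIsolated p) :
    0 < p.1 * p.2 ∧ ∃ g l : ℝ, 1 / 2 < g ∧ g < l ∧ l < 1 ∧ g * l < 1 / 2 ∧
      (∃ a, IsB a ∧ ev a g = 0 ∧ ev a l = 0 ∧ dv a l = 0) ∧ ¬ Near g l ∧
      min |p.1| |p.2| = g ∧ max |p.1| |p.2| = l := by
  have hpos : 0 < p.1 * p.2 := by
    by_contra hcon
    exact not_isolated (not_lt.1 hcon) hp
  refine ⟨hpos, ?_⟩
  have hnear := not_near31 hp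
  have hne := off_diag31 hp
  obtain ⟨hz, hw, hcase⟩ := hp.1
  obtain ⟨a, ha, h1, h2⟩ := hcase.resolve_right hne
  have hprod : |p.1 * p.2| < 1 / 2 := by
    by_contra hcon
    exact hnear (near_big hz hw (not_lt.1 hcon))
  -- both coordinates positive
  obtain ⟨b, hb, hb1, hb2, hbn⟩ : ∃ b, IsB b ∧ ev b |p.1| = 0 ∧ ev b |p.2| = 0 ∧ ¬ Near |p.1| |p.2| := by
    rcases mul_pos_iff.1 hpos with ⟨hz0, hw0⟩ | ⟨hz0, hw0⟩
    · rw [abs_of_pos hz0, abs_of_pos hw0]
      exact ⟨a, ha, h1, h2, hnear⟩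
    · rw [abs_of_neg hz0, abs_of_neg hw0]
      refine ⟨alt a, ha.alt, by rw [ev_alt, neg_neg]; exact h1, by rw [ev_alt, neg_neg]; exact h2, ?_⟩
      intro h
      have := h.neg
      rw [neg_neg, neg_neg] at this
      exact hnear this
  have hz0 : 0 < |p.1| := abs_pos.2 (left_ne_zero_of_mul hpos.ne')
  have hw0 : 0 < |p.2| := abs_pos.2 (right_ne_zero_of_mul hpos.ne')
  rw [abs_mul] at hprod
  have habs : |p.1| ≠ |p.2| := by
    intro h
    rcases abs_eq_abs.1 h with h | h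
    · exact hne h
    · rw [h] at hpos
      nlinarith [mul_self_nonneg p.2]
  rcases lt_or_gt_of_ne habs with h | h
  · obtain ⟨h3, h4⟩ := pos31 hb hz0 h hw hprod hb1 hb2 hbn
    exact ⟨|p.1|, |p.2|, h3, h, hw, hprod, ⟨b, hb, hb1, hb2, h4⟩, hbn, min_eq_left h.le, max_eq_right h.le⟩
  · have hbn' : ¬ Near |p.2| |p.1| := fun h => hbn h.swap
    obtain ⟨h3, h4⟩ := pos31 hb hw0 h hz (by rwa [mul_comm]) hb2 hb1 hbn'
    exact ⟨|p.2|, |p.1|, h3, h, hz, by rwa [mul_comm], ⟨b, hb, hb2, hb1, h4⟩, hbn', min_eq_right h.le,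
      max_eq_left h.le⟩

end Pool.Agent.Iso
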