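import Pool.Agent.Helper31.ISO.Glue

/-!
# MP_35e092_an: interface for the second partial result (helper31, helper65)

`reduce31` (Glue.lean), `double_small31`, `below31`, `tab31` (Below.lean): all proved.
-/
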