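import Pool.Agent.Helper65.Conn.Real
import Pool.Agent.Helper31.ISO.Below

/-!
# MP_35e092_an: soundness of the invariant set
-/

set_option autoImplicit false

namespace Pool.Agent.Helper65.Conn

open Pool.Agent.Iso

/-! ## Continuations -/

/-- a sequence of digits with given sums at `z` and `w` which is not eventually constant `1` or `-1` -/
def Cont (z w y v : ℝ) : Prop := ∃ c : ℕ → ℝ, (∀ n, c n = -1 ∨ c n = 0 ∨ c n = 1) ∧
  HasSum (fun n => c n * z ^ (n + 1)) y ∧ HasSum (fun n => c n * w ^ (n + 1)) v ∧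
  ∀ σ : ℝ, (σ = 1 ∨ σ = -1) → ∀ N₀ : ℕ, ∃ n, N₀ ≤ n ∧ c n ≠ σ

/-- a digit in front -/
def pre31 (d : ℝ) (c : ℕ → ℝ) : ℕ → ℝ := fun n => Nat.casesOn n d c

theorem hasSum_pre31 {d z y : ℝ} {c : ℕ → ℝ} (h : HasSum (fun n => c n * z ^ (n + 1)) y) :
    HasSum (fun n => pre31 d c n * z ^ n) (d + y) := by
  rw [← hasSum_nat_add_iff' 1]
  simp only [Finset.range_one, Finset.sum_singleton, pow_zero, mul_one]
  have e : d + y - pre31 d c 0 = y := by
    show d + y - d = y
    ring
  rw [e]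
  exact h

theorem Cont.cons {z w y v : ℝ} (h : Cont z w y v) {d : ℝ} (hd : d = -1 ∨ d = 0 ∨ d = 1) :
    Cont z w (z * (y + d)) (w * (v + d)) := by
  obtain ⟨c, h1, h2, h3, h4⟩ := h
  refine ⟨pre31 d c, ?_, ?_, ?_, ?_⟩
  · intro n
    cases n with
    | zero => exact hd
    | succ n => exact h1 n
  · have := (hasSum_pre31 (d := d) h2).mul_left z
    rw [add_comm y d]
    refine (congrArg (fun F : ℕ → ℝ => HasSum F _) ?_).mpr this
    funext n
    rw [pow_succ]
    ring
  · have := (hasSum_pre31 (d := d) h3).mul_left w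
    rw [add_comm v d]
    refine (congrArg (fun F : ℕ → ℝ => HasSum F _) ?_).mpr this
    funext n
    rw [pow_succ]
    ring
  · intro σ hσ N₀
    obtain ⟨n, hn, hn'⟩ := h4 σ hσ N₀
    exact ⟨n + 1, by omega, hn'⟩

theorem Cont.word {al be : ℝ} (ha : al ≠ 0) (hb : be ≠ 0) (w : Wd) :
    Cont (1 / al) (1 / be) (yw al w) (yw be w) → Cont (1 / al) (1 / be) (-1) (-1) := by
  induction w with
  | e => exact fun h => h
  | m w ih =>
    intro h
    apply ih
    have := h.cons (d := -1) (Or.inl rfl)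
    simp only [yw] at this
    rw [show al * yw al w + 1 + -1 = al * yw al w by ring, show be * yw be w + 1 + -1 = be * yw be w by ring,
      ← mul_assoc, ← mul_assoc, one_div_mul_cancel ha, one_div_mul_cancel hb, one_mul, one_mul] at this
    exact this
  | o w ih =>
    intro h
    apply ih
    have := h.cons (d := 0) (Or.inr (Or.inl rfl))
    simp only [yw] at this
    rw [add_zero, add_zero,
      ← mul_assoc, ← mul_assoc, one_div_mul_cancel ha, one_div_mul_cancel hb, one_mul, one_mul] at this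
    exact this
  | p w ih =>
    intro h
    apply ih
    have := h.cons (d := 1) (Or.inr (Or.inr rfl))
    simp only [yw] at this
    rw [show al * yw al w - 1 + 1 = al * yw al w by ring, show be * yw be w - 1 + 1 = be * yw be w by ring,
      ← mul_assoc, ← mul_assoc, one_div_mul_cancel ha, one_div_mul_cancel hb, one_mul, one_mul] at this
    exact this

/-- sums from bounded states -/
theorem hasSum_of_states {x Y : ℝ} (hx : 1 < x) {s c : ℕ → ℝ} (hs : ∀ n, |s n| ≤ Y)
    (hstep : ∀ n, s (n + 1) = x * s n - c n) : ∀ k, HasSum (fun n => c (k + n) * (1 / x) ^ (n + 1)) (s k) := by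
  intro k
  have hx0 : 0 < x := by linarith
  have hz0 : 0 < 1 / x := by positivity
  have hz1 : 1 / x < 1 := by rw [div_lt_one hx0]; exact hx
  have hY : 0 ≤ Y := (abs_nonneg _).trans (hs 0)
  have hc : ∀ n, |c n| ≤ (x + 1) * Y := by
    intro n
    have h1 : c n = x * s n - s (n + 1) := by rw [hstep]; ring
    rw [h1]
    have h2 := abs_sub (x * s n) (s (n + 1))
    rw [abs_mul, abs_of_pos hx0] at h2
    have h3 := mul_le_mul_of_nonneg_left (hs n) hx0.le
    have h4 := hs (n + 1)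
    linarith
  have hsum : Summable (fun n => c (k + n) * (1 / x) ^ (n + 1)) := by
    have hg : Summable (fun n : ℕ => (x + 1) * Y * (1 / x) * (1 / x) ^ n) :=
      (summable_geometric_of_lt_one hz0.le hz1).mul_left _
    refine Summable.of_norm_bounded hg fun n => ?_
    rw [Real.norm_eq_abs, abs_mul, abs_of_nonneg (pow_nonneg hz0.le _), pow_succ]
    have := mul_le_mul_of_nonneg_right (hc (k + n)) (mul_nonneg (pow_nonneg hz0.le n) hz0.le)
    calc _ ≤ _ := this
      _ = _ := by ring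
  have hpart : ∀ m, s k = (∑ n ∈ Finset.range m, c (k + n) * (1 / x) ^ (n + 1)) + (1 / x) ^ m * s (k + m) := by
    intro m
    induction m with
    | zero => simp
    | succ m ih =>
      rw [Finset.sum_range_succ, ih]
      have h1 : s (k + (m + 1)) = x * s (k + m) - c (k + m) := hstep (k + m)
      rw [h1, pow_succ]
      have h2 : 1 / x * x = 1 := one_div_mul_cancel hx0.ne'
      linear_combination (- (1 / x) ^ m * s (k + m)) * h2
  have hlim : Filter.Tendsto (fun m => ∑ n ∈ Finset.range m, c (k + n) * (1 / x) ^ (n + 1)) Filter.atTop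
      (nhds (s k)) := by
    have h1 : Filter.Tendsto (fun m : ℕ => (1 / x) ^ m * s (k + m)) Filter.atTop (nhds 0) := by
      have h2 : Filter.Tendsto (fun m : ℕ => (1 / x) ^ m * Y) Filter.atTop (nhds (0 * Y)) :=
        (tendsto_pow_atTop_nhds_zero_of_lt_one hz0.le hz1).mul_const Y
      rw [zero_mul] at h2
      refine squeeze_zero_norm (fun m => ?_) h2
      rw [Real.norm_eq_abs, abs_mul, abs_of_nonneg (pow_nonneg hz0.le _)]
      exact mul_le_mul_of_nonneg_left (hs _) (pow_nonneg hz0.le _)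
    have h3 : (fun m => ∑ n ∈ Finset.range m, c (k + n) * (1 / x) ^ (n + 1)) =
        fun m => s k - (1 / x) ^ m * s (k + m) := by
      funext m
      have := hpart m
      linarith
    rw [h3]
    have := (tendsto_const_nhds (x := s k)).sub h1
    rwa [sub_zero] at this
  have := hsum.hasSum.tendsto_sum_nat
  rw [← tendsto_nhds_unique this hlim]
  exact hsum.hasSum

theorem not_const_of_states {x Y : ℝ} (hx : 1 < x) {s c : ℕ → ℝ} (hs : ∀ n, |s n| ≤ Y) (hY : Y * (x - 1) < 1)
    (hstep : ∀ n, s (n + 1) = x * s n - c n) {σ : ℝ} (hσ : σ = 1 ∨ σ = -1) (N₀ : ℕ) :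
    ∃ n, N₀ ≤ n ∧ c n ≠ σ := by
  by_contra hcon
  push Not at hcon
  have hx0 : 0 < x := by linarith
  have hz0 : 0 < 1 / x := by positivity
  have hz1 : 1 / x < 1 := by rw [div_lt_one hx0]; exact hx
  have h1 := hasSum_of_states hx hs hstep N₀
  have h2 : HasSum (fun n => c (N₀ + n) * (1 / x) ^ (n + 1)) (σ * (1 / x) * (1 - 1 / x)⁻¹) := by
    refine (congrArg (fun F : ℕ → ℝ => HasSum F _) ?_).mpr
      ((hasSum_geometric_of_lt_one hz0.le hz1).mul_left (σ * (1 / x)))
    funext n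
    rw [hcon (N₀ + n) (by omega), pow_succ]
    ring
  have h3 := h1.unique h2
  have h4 : σ * (1 / x) * (1 - 1 / x)⁻¹ * (x - 1) = σ := by
    have h5 : x - 1 ≠ 0 := by linarith
    have h6 : 1 - 1 / x = (x - 1) / x := by field_simp
    rw [h6, inv_div]
    field_simp
  rw [← h3] at h4
  have h5 : |s N₀ * (x - 1)| = 1 := by
    rw [h4]
    rcases hσ with h | h <;> rw [h] <;> simp
  rw [abs_mul, abs_of_pos (by linarith : 0 < x - 1)] at h5
  have := mul_le_mul_of_nonneg_right (hs N₀) (by linarith : 0 ≤ x - 1)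
  linarith

/-- continuation from an invariant set -/
theorem cont_of_inv {P : ℝ → ℝ → Prop} {al be Y Y' : ℝ} (ha : 1 < al) (hb : 1 < be)
    (h1 : ∀ y v, P y v → |y| ≤ Y) (h2 : ∀ y v, P y v → |v| ≤ Y') (hY : Y * (al - 1) < 1)
    (hstep : ∀ y v, P y v → ∃ d : ℝ, (d = -1 ∨ d = 0 ∨ d = 1) ∧ P (al * y - d) (be * v - d)) {y v : ℝ}
    (h : P y v) : Cont (1 / al) (1 / be) y v := by
  classical
  choose! dg hdg1 hdg2 using hstep
  let st : ℕ → ℝ × ℝ := fun n =>
    Nat.rec (motive := fun _ => ℝ × ℝ) (y, v) (fun _ p => (al * p.1 - dg p.1 p.2, be * p.2 - dg p.1 p.2)) n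
  have hst : ∀ n, P (st n).1 (st n).2 := by
    intro n
    induction n with
    | zero => exact h
    | succ n ih => exact hdg2 _ _ ih
  refine ⟨fun n => dg (st n).1 (st n).2, fun n => hdg1 _ _ (hst n), ?_, ?_, ?_⟩
  · have := hasSum_of_states (x := al) (s := fun n => (st n).1) (c := fun n => dg (st n).1 (st n).2) ha
      (fun n => h1 _ _ (hst n)) (fun n => rfl) 0
    simp only [zero_add] at this
    exact this
  · have := hasSum_of_states (x := be) (s := fun n => (st n).2) (c := fun n => dg (st n).1 (st n).2) hb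
      (fun n => h2 _ _ (hst n)) (fun n => rfl) 0
    simp only [zero_add] at this
    exact this
  · intro σ hσ N₀
    exact not_const_of_states (x := al) (s := fun n => (st n).1) (c := fun n => dg (st n).1 (st n).2) ha
      (fun n => h1 _ _ (hst n)) hY (fun n => rfl) hσ N₀

/-- a continuation at the start gives a point which is not isolated -/
theorem near_of_cont {al be : ℝ} (ha : 1 < al) (hb : 1 < be) (hab : 2 < al * be) (hne : al ≠ be)
    (h : Cont (1 / al) (1 / be) (-1) (-1)) : Near (1 / al) (1 / be) := by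
  obtain ⟨c, h1, h2, h3, h4⟩ := h
  have ha0 : 0 < al := by linarith
  have hb0 : 0 < be := by linarith
  have hz0 : 0 < 1 / al := by positivity
  have hz1 : 1 / al < 1 := by rw [div_lt_one ha0]; exact ha
  have hw0 : 0 < 1 / be := by positivity
  have hw1 : 1 / be < 1 := by rw [div_lt_one hb0]; exact hb
  have hB : IsB (pre31 1 c) := ⟨rfl, fun n => by
    cases n with
    | zero => exact Or.inr (Or.inr rfl)
    | succ n => exact h1 n⟩
  have e1 : ev (pre31 1 c) (1 / al) = 0 := by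
    have := (hasSum_pre31 (d := 1) h2).tsum_eq
    rw [add_neg_cancel] at this
    exact this
  have e2 : ev (pre31 1 c) (1 / be) = 0 := by
    have := (hasSum_pre31 (d := 1) h3).tsum_eq
    rw [add_neg_cancel] at this
    exact this
  have hnc : ∀ x : ℝ, 0 < x → ∀ σ : ℝ, (σ = 1 ∨ σ = -1) → ∀ N₀ : ℕ, ∃ n, N₀ ≤ n ∧
      pre31 1 c n * x ^ n ≠ σ * |x| ^ n := by
    intro x hx σ hσ N₀
    obtain ⟨n, hn, hn'⟩ := h4 σ hσ N₀
    refine ⟨n + 1, by omega, ?_⟩
    rw [abs_of_pos hx]
    intro hcon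
    exact hn' (mul_right_cancel₀ (pow_pos hx _).ne' hcon)
  have hprod : 1 / al * (1 / be) < 1 / 2 := by
    rw [one_div_mul_one_div, one_div_lt_one_div (by positivity) (by norm_num)]
    exact hab
  rcases lt_or_gt_of_ne hne with hlt | hlt
  · -- be is larger, 1 / be smaller
    have hlt' : 1 / be < 1 / al := one_div_lt_one_div_of_lt ha0 hlt
    have hd : dv (pre31 1 c) (1 / be) ≠ 0 := by
      intro hd
      have := double_small31 hB.1 hB.abs_le hw0 hlt' hz1 e2 hd e1
      rw [mul_comm] at this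
      linarith
    exact (near_of_perturb hB (by rw [abs_of_pos hw0]; exact hw1) (by rw [abs_of_pos hz0]; exact hz1) e2 e1 hd
      (Or.inr (hnc _ hz0))).swap
  · have hlt' : 1 / al < 1 / be := one_div_lt_one_div_of_lt hb0 hlt
    have hd : dv (pre31 1 c) (1 / al) ≠ 0 := by
      intro hd
      have := double_small31 hB.1 hB.abs_le hz0 hlt' hw1 e1 hd e2
      linarith
    exact near_of_perturb hB (by rw [abs_of_pos hz0]; exact hz1) (by rw [abs_of_pos hw0]; exact hw1) e1 e2 hd
      (Or.inr (hnc _ hw0))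

/-! ## The checker -/

theorem force_eq31 {α : Type} (n : ℕ) (f : ℕ → α) : force n f = f n := by
  cases n <;> rfl

theorem nmin_eq31 (a b : ℕ) : nmin a b = min a b := by
  unfold nmin
  cases h : Nat.ble a b with
  | true =>
    have : a ≤ b := Nat.le_of_ble_eq_true h
    rw [cond_true, min_eq_left this]
  | false =>
    have : b < a := by
      by_contra hc
      rw [Nat.ble_eq_true_of_le (not_lt.1 hc)] at h
      exact Bool.noConfusion h
    rw [cond_false, min_eq_right this.le]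

theorem gd_lt (c i : ℕ) : gd c i < 1048576 := Nat.mod_lt _ (by norm_num)

theorem minw_le (c : ℕ) : ∀ (k u j : ℕ), u ≤ j → j ≤ u + k → minw c k u ≤ gd c j := by
  intro k
  induction k with
  | zero =>
    intro u j h1 h2
    have : j = u := by omega
    rw [this]
    exact le_refl _
  | succ k ih =>
    intro u j h1 h2
    show nmin (gd c u) (minw c k (Nat.succ u)) ≤ _
    rw [nmin_eq31]
    rcases Nat.eq_or_lt_of_le h1 with h | h
    · rw [← h]
      exact min_le_left _ _
    · exact (min_le_right _ _).trans (ih _ _ h (by omega))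

theorem pass_cov (L : List (ℕ × ℕ)) : ∀ (cur : ℕ) (x : ℝ), (cur : ℝ) ≤ x → x < pass L cur →
    ∃ p ∈ L, (p.1 : ℝ) ≤ x ∧ x ≤ p.2 := by
  induction L with
  | nil =>
    intro cur x h1 h2
    exact absurd h2 (not_lt.2 h1)
  | cons p L ih =>
    intro cur x h1 h2
    have h3 : pass (p :: L) cur = pass L (cond (and (Nat.ble p.1 cur) (Nat.ble cur p.2)) p.2 cur) := rfl
    rw [h3] at h2
    cases hc : and (Nat.ble p.1 cur) (Nat.ble cur p.2) with
    | true =>
      rw [hc, cond_true] at h2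
      rw [Bool.and_eq_true] at hc
      have h4 : p.1 ≤ cur := Nat.le_of_ble_eq_true hc.1
      by_cases h5 : x ≤ p.2
      · exact ⟨p, List.mem_cons_self .., (by exact_mod_cast h4 : (p.1 : ℝ) ≤ cur).trans h1, h5⟩
      · obtain ⟨q, hq, hq'⟩ := ih _ _ (not_le.1 h5).le h2
        exact ⟨q, List.mem_cons_of_mem _ hq, hq'⟩
    | false =>
      rw [hc, cond_false] at h2
      obtain ⟨q, hq, hq'⟩ := ih _ _ h1 h2
      exact ⟨q, List.mem_cons_of_mem _ hq, hq'⟩

theorem cover_spec {R cur : ℕ} {L : List (ℕ × ℕ)} (h : cover R cur L = true) {x : ℝ} (h1 : (cur : ℝ) ≤ x)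
    (h2 : x ≤ R) : ∃ p ∈ L, (p.1 : ℝ) ≤ x ∧ x ≤ p.2 := by
  unfold cover at h
  rw [Bool.or_eq_true, Bool.or_eq_true, Nat.blt_eq, Nat.blt_eq, Nat.blt_eq] at h
  by_cases c1 : x < pass L cur
  · exact pass_cov L _ _ h1 c1
  push Not at c1
  by_cases c2 : x < pass L (pass L cur)
  · exact pass_cov L _ _ c1 c2
  push Not at c2
  by_cases c3 : x < pass L (pass L (pass L cur))
  · exact pass_cov L _ _ c2 c3
  push Not at c3
  exfalso
  rcases h with h | h | h
  · have : (R : ℝ) < pass L cur := by exact_mod_cast h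
    linarith
  · have : (R : ℝ) < pass L (pass L cur) := by exact_mod_cast h
    linarith
  · have : (R : ℝ) < pass L (pass L (pass L cur)) := by exact_mod_cast h
    linarith

theorem mem_iv {K : KD} {c : Bool} {P Q off : ℕ} {r : List (ℕ × ℕ)} {p : ℕ × ℕ} (h : p ∈ iv K c P Q off r) :
    p ∈ r ∨ (c = true ∧ Q < 2 * K.M * K.H ∧
      p = (off + OFF - minw K.G (Q / K.H - P / K.H) (2 * K.M - 1 - Q / K.H),
        off + minw K.G (Q / K.H - P / K.H) (P / K.H) - OFF)) := by
  unfold iv at h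
  cases hc : and c (Nat.blt Q (Nat.mul (Nat.mul 2 K.M) K.H)) with
  | false =>
    rw [hc, cond_false] at h
    exact Or.inl h
  | true =>
    rw [hc, cond_true] at h
    simp only [force_eq31] at h
    rw [Bool.and_eq_true, Nat.blt_eq] at hc
    rcases List.mem_cons.1 h with h | h
    · exact Or.inr ⟨hc.1, hc.2, h⟩
    · exact Or.inl h

/-- one digit -/
theorem mem_of_iv {K : KD} (hH : 0 < K.H) {P Q off : ℕ} (hoff : OFF ≤ off) (hQ : Q < 2 * K.M * K.H) {y v : ℝ}
    (h1 : (P : ℝ) ≤ y * D + K.M * K.H) (h2 : y * D + K.M * K.H ≤ Q)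
    (h3 : ((off + OFF - minw K.G (Q / K.H - P / K.H) (2 * K.M - 1 - Q / K.H) : ℕ) : ℝ) ≤ S * v + off)
    (h4 : S * v + off ≤ ((off + minw K.G (Q / K.H - P / K.H) (P / K.H) - OFF : ℕ) : ℝ)) : K.Mem y v := by
  have hHr : (0 : ℝ) < K.H := by exact_mod_cast hH
  set τ : ℝ := y * D + K.M * K.H with hτ
  have hτ0 : 0 ≤ τ := (Nat.cast_nonneg P).trans h1
  have hτH : 0 ≤ τ / K.H := div_nonneg hτ0 hHr.le
  set i : ℕ := ⌊τ / K.H⌋₊ with hi
  have hi1 : (i : ℝ) ≤ τ / K.H := Nat.floor_le hτH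
  have hi2 : τ / K.H < i + 1 := Nat.lt_floor_add_one _
  rw [le_div_iff₀ hHr] at hi1
  rw [div_lt_iff₀ hHr] at hi2
  have hui : P / K.H ≤ i := by
    have h5 : ((P / K.H : ℕ) : ℝ) * K.H ≤ P := by exact_mod_cast Nat.div_mul_le_self P K.H
    have h6 : ((P / K.H : ℕ) : ℝ) * K.H < (i + 1) * K.H := by linarith
    have h7 := lt_of_mul_lt_mul_right h6 hHr.le
    have h8 : P / K.H < i + 1 := by exact_mod_cast h7
    omega
  have hiw : i ≤ Q / K.H := by
    rw [Nat.le_div_iff_mul_le hH]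
    have : (i : ℝ) * K.H ≤ Q := hi1.trans h2
    exact_mod_cast this
  have hw : Q / K.H < 2 * K.M := by
    rw [Nat.div_lt_iff_lt_mul hH]
    exact hQ
  refine ⟨i, by omega, hi1, hi2.le, ?_, ?_⟩
  · have h5 : minw K.G (Q / K.H - P / K.H) (2 * K.M - 1 - Q / K.H) ≤ gd K.G (2 * K.M - 1 - i) :=
      minw_le _ _ _ _ (by omega) (by omega)
    have h6 : (minw K.G (Q / K.H - P / K.H) (2 * K.M - 1 - Q / K.H) : ℝ) ≤ gd K.G (2 * K.M - 1 - i) := by
      exact_mod_cast h5
    have h7 : ((off + OFF : ℕ) : ℝ) - minw K.G (Q / K.H - P / K.H) (2 * K.M - 1 - Q / K.H) ≤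
        ((off + OFF - minw K.G (Q / K.H - P / K.H) (2 * K.M - 1 - Q / K.H) : ℕ) : ℝ) := by
      rw [sub_le_iff_le_add]
      have : off + OFF ≤ off + OFF - minw K.G (Q / K.H - P / K.H) (2 * K.M - 1 - Q / K.H) +
          minw K.G (Q / K.H - P / K.H) (2 * K.M - 1 - Q / K.H) := by omega
      exact_mod_cast this
    push_cast at h7
    linarith
  · have h5 : minw K.G (Q / K.H - P / K.H) (P / K.H) ≤ gd K.G i := minw_le _ _ _ _ hui (by omega)
    have h6 : (minw K.G (Q / K.H - P / K.H) (P / K.H) : ℝ) ≤ gd K.G i := by exact_mod_cast h5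
    rw [Nat.cast_sub (by omega)] at h4
    push_cast at h4
    linarith

theorem KD.Mem.neg {K : KD} {y v : ℝ} (h : K.Mem y v) : K.Mem (-y) (-v) := by
  obtain ⟨i, h1, h2, h3, h4, h5⟩ := h
  refine ⟨2 * K.M - 1 - i, by omega, ?_, ?_, ?_, ?_⟩
  · rw [Nat.cast_sub (by omega), Nat.cast_sub (by omega)]
    push_cast
    linarith
  · rw [Nat.cast_sub (by omega), Nat.cast_sub (by omega)]
    push_cast
    linarith
  · rw [show 2 * K.M - 1 - (2 * K.M - 1 - i) = i by omega]
    linarith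
  · linarith

theorem D_pos : (0 : ℝ) < D := by
  unfold D
  norm_num

theorem cast_div_le31 (m : ℕ) : ((m / D : ℕ) : ℝ) ≤ (m : ℝ) / D := Nat.cast_div_le

theorem lt_cast_div31 (m : ℕ) : (m : ℝ) / D < ((m / D : ℕ) : ℝ) + 1 := by
  rw [div_lt_iff₀ D_pos]
  have h9 : m < (m / D + 1) * D := by
    have := Nat.lt_div_mul_add (a := m) (b := D) (by unfold D; norm_num)
    rw [Nat.add_mul, one_mul]
    exact this
  exact_mod_cast h9

theorem loB_le {X : Root} {x : ℕ} (hb : X.b + X.db ≤ 2 * D) {β t : ℝ} (h0 : 0 ≤ β) (h1 : (X.b : ℝ) ≤ β * D)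
    (h2 : β * D ≤ X.b + X.db) (ht : (x : ℝ) ≤ t + OFF) : (loB X x : ℝ) ≤ β * t + WW := by
  have hD := D_pos
  unfold loB
  cases hc : Nat.ble OFF x with
  | true =>
    have hx : OFF ≤ x := Nat.le_of_ble_eq_true hc
    rw [cond_true]
    show ((WW + (x - OFF) * X.b / D : ℕ) : ℝ) ≤ _
    have h3 := cast_div_le31 ((x - OFF) * X.b)
    have h4 : (((x - OFF) * X.b : ℕ) : ℝ) / D ≤ ((x - OFF : ℕ) : ℝ) * β := by
      rw [div_le_iff₀ hD, mul_assoc, Nat.cast_mul]
      exact mul_le_mul_of_nonneg_left h1 (Nat.cast_nonneg _)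
    have h5 : ((x - OFF : ℕ) : ℝ) * β ≤ t * β := by
      refine mul_le_mul_of_nonneg_right ?_ h0
      rw [Nat.cast_sub hx]
      linarith
    rw [Nat.cast_add]
    linarith
  | false =>
    have hx : x < OFF := by
      by_contra hcon
      rw [Nat.ble_eq_true_of_le (not_lt.1 hcon)] at hc
      exact Bool.noConfusion hc
    rw [cond_false]
    show ((WW - ((OFF - x) * (X.b + X.db) / D + 1) : ℕ) : ℝ) ≤ _
    have h6 : (OFF - x) * (X.b + X.db) / D ≤ 2 * OFF := by
      have : (OFF - x) * (X.b + X.db) ≤ OFF * (2 * D) := Nat.mul_le_mul (by omega) hb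
      refine (Nat.div_le_div_right this).trans ?_
      rw [show OFF * (2 * D) = 2 * OFF * D by ring, Nat.mul_div_cancel _ (by unfold D; norm_num)]
    have h7 : (OFF - x) * (X.b + X.db) / D + 1 ≤ WW := by
      have : 2 * OFF + 1 ≤ WW := by unfold OFF WW; norm_num
      omega
    have h8 := lt_cast_div31 ((OFF - x) * (X.b + X.db))
    have h10 : ((OFF - x : ℕ) : ℝ) * β ≤ (((OFF - x) * (X.b + X.db) : ℕ) : ℝ) / D := by
      rw [le_div_iff₀ hD, mul_assoc, Nat.cast_mul, Nat.cast_add]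
      exact mul_le_mul_of_nonneg_left h2 (Nat.cast_nonneg _)
    have h11 : ((OFF - x : ℕ) : ℝ) = OFF - x := by rw [Nat.cast_sub hx.le]
    have h12 : -t * β ≤ (OFF - x) * β := mul_le_mul_of_nonneg_right (by linarith) h0
    rw [h11] at h10
    rw [Nat.cast_sub h7, Nat.cast_add, Nat.cast_one]
    linarith

theorem le_hiB {X : Root} {x : ℕ} {β t : ℝ} (h0 : 0 ≤ β) (h1 : (X.b : ℝ) ≤ β * D)
    (h2 : β * D ≤ X.b + X.db) (ht : t + OFF ≤ x) : β * t + WW ≤ (hiB X x : ℝ) := by
  have hD := D_pos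
  unfold hiB
  cases hc : Nat.ble OFF x with
  | true =>
    have hx : OFF ≤ x := Nat.le_of_ble_eq_true hc
    rw [cond_true]
    show _ ≤ ((WW + ((x - OFF) * (X.b + X.db) / D + 1) : ℕ) : ℝ)
    have h3 := lt_cast_div31 ((x - OFF) * (X.b + X.db))
    have h4 : ((x - OFF : ℕ) : ℝ) * β ≤ (((x - OFF) * (X.b + X.db) : ℕ) : ℝ) / D := by
      rw [le_div_iff₀ hD, mul_assoc, Nat.cast_mul, Nat.cast_add]
      exact mul_le_mul_of_nonneg_left h2 (Nat.cast_nonneg _)
    have h5 : t * β ≤ ((x - OFF : ℕ) : ℝ) * β := by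
      refine mul_le_mul_of_nonneg_right ?_ h0
      rw [Nat.cast_sub hx]
      linarith
    rw [Nat.cast_add, Nat.cast_add, Nat.cast_one]
    linarith
  | false =>
    have hx : x < OFF := by
      by_contra hcon
      rw [Nat.ble_eq_true_of_le (not_lt.1 hcon)] at hc
      exact Bool.noConfusion hc
    rw [cond_false]
    show _ ≤ ((WW - (OFF - x) * X.b / D : ℕ) : ℝ)
    have h7 : ((WW : ℕ) : ℝ) - (((OFF - x) * X.b / D : ℕ) : ℝ) ≤ ((WW - (OFF - x) * X.b / D : ℕ) : ℝ) := by
      rw [sub_le_iff_le_add]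
      have : WW ≤ WW - (OFF - x) * X.b / D + (OFF - x) * X.b / D := by omega
      exact_mod_cast this
    have h8 := cast_div_le31 ((OFF - x) * X.b)
    have h10 : (((OFF - x) * X.b : ℕ) : ℝ) / D ≤ ((OFF - x : ℕ) : ℝ) * β := by
      rw [div_le_iff₀ hD, mul_assoc, Nat.cast_mul]
      exact mul_le_mul_of_nonneg_left h1 (Nat.cast_nonneg _)
    have h11 : ((OFF - x : ℕ) : ℝ) = OFF - x := by rw [Nat.cast_sub hx.le]
    have h12 : (OFF - x) * β ≤ -t * β := mul_le_mul_of_nonneg_right (by linarith) h0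
    rw [h11] at h10
    linarith

theorem KD.ok_spec {X : Root} {K : KD} (h : K.ok X = true) : 0 < K.H ∧ X.b + X.db ≤ 2 * D ∧
    K.M * K.H * (X.a + X.da - D) < D * D ∧ cells X K K.M = true := by
  unfold KD.ok at h
  simp only [Bool.and_eq_true] at h
  obtain ⟨⟨⟨h1, h2⟩, h3, h4⟩, h5, h6⟩ := h
  exact ⟨by rwa [Nat.blt_eq] at h1, Nat.le_of_ble_eq_true h3, by rwa [Nat.blt_eq] at h4, h5⟩

theorem cells_spec {X : Root} {K : KD} : ∀ k, cells X K k = true → ∀ i, i < k → cellOK X K i = true := by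
  intro k
  induction k with
  | zero =>
    intro _ i hi
    exact absurd hi (Nat.not_lt_zero i)
  | succ k ih =>
    intro h i hi
    have h' : (and (cellOK X K k) (cells X K k)) = true := h
    rw [Bool.and_eq_true] at h'
    rcases Nat.lt_succ_iff_lt_or_eq.1 hi with h1 | h1
    · exact ih h'.2 i h1
    · rw [h1]
      exact h'.1

/-- one step for nonnegative `y` -/
theorem step_pos {X : Root} {K : KD} (hH : 0 < K.H) (hb : X.b + X.db ≤ 2 * D) {al be : ℝ} (hal : 0 ≤ al)
    (hbe : 0 ≤ be) (hp : X.In al be) {i : ℕ} (_ : i < K.M) (hc : cellOK X K i = true) {y v : ℝ}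
    (h1 : (i : ℝ) * K.H ≤ y * D) (h2 : y * D ≤ ((i : ℝ) + 1) * K.H)
    (h3 : (OFF : ℝ) - gd K.G (K.M - 1 - i) ≤ S * v) (h4 : S * v ≤ (gd K.G (K.M + i) : ℝ) - OFF) :
    ∃ d : ℝ, (d = -1 ∨ d = 0 ∨ d = 1) ∧ K.Mem (al * y - d) (be * v - d) := by
  obtain ⟨p1, p2, p3, p4⟩ := hp
  have hD := D_pos
  unfold cellOK at hc
  simp only [force_eq31] at hc
  set plo : ℕ := Nat.add (Nat.div (Nat.mul (Nat.mul i K.H) X.a) D) (Nat.mul K.M K.H) with hplo
  set phi : ℕ := Nat.add (Nat.div (Nat.mul (Nat.add (Nat.mul i K.H) K.H) (Nat.add X.a X.da)) D)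
    (Nat.add (Nat.mul K.M K.H) 1) with hphi
  have e1 : (plo : ℝ) ≤ al * y * D + K.M * K.H := by
    have h5 := cast_div_le31 (i * K.H * X.a)
    have h6 : plo = i * K.H * X.a / D + K.M * K.H := rfl
    have h7 : ((i * K.H * X.a : ℕ) : ℝ) / D ≤ al * y * D := by
      rw [div_le_iff₀ hD]
      push_cast
      calc (i : ℝ) * K.H * X.a ≤ (y * D) * (al * D) :=
            mul_le_mul h1 p1 (Nat.cast_nonneg _) (le_trans (by positivity) h1)
        _ = _ := by ring
    rw [h6, Nat.cast_add, Nat.cast_mul K.M]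
    linarith
  have e2 : al * y * D + K.M * K.H ≤ (phi : ℝ) := by
    have h5 := lt_cast_div31 ((i * K.H + K.H) * (X.a + X.da))
    have h6 : phi = (i * K.H + K.H) * (X.a + X.da) / D + (K.M * K.H + 1) := rfl
    have h7 : al * y * D ≤ (((i * K.H + K.H) * (X.a + X.da) : ℕ) : ℝ) / D := by
      rw [le_div_iff₀ hD]
      push_cast
      calc al * y * D * D = (y * D) * (al * D) := by ring
        _ ≤ ((i : ℝ) * K.H + K.H) * (X.a + X.da) := mul_le_mul (by linarith) p2 (by positivity) (by positivity)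
    rw [h6, Nat.cast_add, Nat.cast_add (K.M * K.H), Nat.cast_mul K.M, Nat.cast_one]
    linarith
  have hS : (S : ℕ) + OFF ≤ WW := by unfold S OFF WW; norm_num
  have hws : ((WW - S : ℕ) : ℝ) = (WW : ℝ) - S := Nat.cast_sub (by omega)
  have hgd : gd K.G (K.M - 1 - i) < 1048576 := gd_lt _ _
  have hOFF : 2 * OFF = 1048576 := by unfold OFF; norm_num
  have e3 : (loB X (Nat.sub (Nat.mul 2 OFF) (gd K.G (Nat.sub (Nat.sub K.M 1) i))) : ℝ) ≤ be * (S * v) + WW := by
    refine loB_le hb hbe p3 p4 ?_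
    show ((2 * OFF - gd K.G (K.M - 1 - i) : ℕ) : ℝ) ≤ _
    rw [Nat.cast_sub (by omega)]
    push_cast
    linarith
  have e4 : be * (S * v) + WW ≤ (hiB X (gd K.G (Nat.add K.M i)) : ℝ) := by
    refine le_hiB hbe p3 p4 ?_
    show _ ≤ ((gd K.G (K.M + i) : ℕ) : ℝ)
    linarith
  obtain ⟨p, hp, q1, q2⟩ := cover_spec hc e3 e4
  have hMH : (0 : ℝ) ≤ K.M * K.H := by positivity
  have hlt : ∀ {a b : ℕ} {t : ℝ}, (a : ℝ) ≤ t → t ≤ b → a ≤ b := by
    intro a b t h5 h6
    exact_mod_cast h5.trans h6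
  rcases mem_iv hp with hp | ⟨c1, c2, c3⟩
  · rcases mem_iv hp with hp | ⟨c1, c2, c3⟩
    · rcases mem_iv hp with hp | ⟨c1, c2, c3⟩
      · exact absurd hp (List.not_mem_nil)
      · -- digit -1
        refine ⟨-1, Or.inl rfl, ?_⟩
        rw [c3] at q1 q2
        refine mem_of_iv hH (P := plo + D) (Q := phi + D) (off := WW - S) (by omega) c2 ?_ ?_ ?_ ?_
        · push_cast
          linarith
        · push_cast
          linarith
        · rw [hws]
          refine le_trans q1 (le_of_eq ?_)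
          ring
        · rw [hws]
          refine le_trans (le_of_eq ?_) q2
          ring
    · refine ⟨0, Or.inr (Or.inl rfl), ?_⟩
      rw [c3] at q1 q2
      rw [sub_zero, sub_zero]
      refine mem_of_iv hH (P := plo) (Q := phi) (off := WW) (by omega) c2 e1 e2 ?_ ?_
      · refine le_trans q1 (le_of_eq ?_)
        ring
      · refine le_trans (le_of_eq ?_) q2
        ring
  · refine ⟨1, Or.inr (Or.inr rfl), ?_⟩
    rw [c3] at q1 q2
    have hle : D ≤ plo := Nat.le_of_ble_eq_true c1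
    have hle' : plo ≤ phi := hlt e1 e2
    refine mem_of_iv hH (P := plo - D) (Q := phi - D) (off := WW + S) (by omega) c2 ?_ ?_ ?_ ?_
    · rw [Nat.cast_sub hle]
      linarith
    · rw [Nat.cast_sub (hle.trans hle')]
      linarith
    · rw [Nat.cast_add]
      refine le_trans q1 (le_of_eq ?_)
      ring
    · rw [Nat.cast_add]
      refine le_trans (le_of_eq ?_) q2
      ring

theorem KD.Mem.step {X : Root} {K : KD} (hK : K.ok X = true) {al be : ℝ} (hal : 0 ≤ al)
    (hbe : 0 ≤ be) (hp : X.In al be) {y v : ℝ} (h : K.Mem y v) :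
    ∃ d : ℝ, (d = -1 ∨ d = 0 ∨ d = 1) ∧ K.Mem (al * y - d) (be * v - d) := by
  obtain ⟨hH, hb, -, hc⟩ := KD.ok_spec hK
  have hcell := cells_spec _ hc
  have main : ∀ y v : ℝ, ∀ i : ℕ, i < 2 * K.M → K.M ≤ i → (i : ℝ) * K.H ≤ y * D + K.M * K.H →
      y * D + K.M * K.H ≤ ((i : ℝ) + 1) * K.H →
      (OFF : ℝ) - gd K.G (2 * K.M - 1 - i) ≤ S * v → S * v ≤ (gd K.G i : ℝ) - OFF →
      ∃ d : ℝ, (d = -1 ∨ d = 0 ∨ d = 1) ∧ K.Mem (al * y - d) (be * v - d) := by
    intro y v i hi hMi h1 h2 h3 h4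
    obtain ⟨j, rfl⟩ := Nat.exists_eq_add_of_le hMi
    have hj : j < K.M := by omega
    refine step_pos hH hb hal hbe hp hj (hcell j hj) ?_ ?_ ?_ h4
    · push_cast at h1
      linarith
    · push_cast at h2
      linarith
    · rw [show K.M - 1 - j = 2 * K.M - 1 - (K.M + j) by omega]
      exact h3
  obtain ⟨i, h1, h2, h3, h4, h5⟩ := h
  by_cases hi : K.M ≤ i
  · exact main y v i h1 hi h2 h3 h4 h5
  · have hn : K.Mem (-y) (-v) := KD.Mem.neg ⟨i, h1, h2, h3, h4, h5⟩
    obtain ⟨d, hd, hm⟩ := main (-y) (-v) (2 * K.M - 1 - i) (by omega) (by omega) (by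
        rw [Nat.cast_sub (by omega), Nat.cast_sub (by omega)]
        push_cast
        linarith) (by
        rw [Nat.cast_sub (by omega), Nat.cast_sub (by omega)]
        push_cast
        linarith) (by
        rw [show 2 * K.M - 1 - (2 * K.M - 1 - i) = i by omega]
        linarith) (by linarith)
    refine ⟨-d, ?_, ?_⟩
    · rcases hd with h | h | h <;> rw [h]
      · right; right; norm_num
      · right; left; norm_num
      · left; rfl
    · have := hm.neg
      rw [show al * y - -d = -(al * -y - d) by ring, show be * v - -d = -(be * -v - d) by ring]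
      exact this

theorem KD.Mem.abs_le {K : KD} {y v : ℝ} (h : K.Mem y v) : |y| ≤ K.M * K.H / D ∧ |v| ≤ 32 := by
  obtain ⟨i, h1, h2, h3, h4, h5⟩ := h
  have hD := D_pos
  have hi : ((i : ℝ) + 1) ≤ 2 * K.M := by exact_mod_cast h1
  have hH : (0 : ℝ) ≤ K.H := Nat.cast_nonneg _
  constructor
  · rw [_root_.abs_le, _root_.neg_le, le_div_iff₀ hD, le_div_iff₀ hD]
    constructor
    · have : (0 : ℝ) ≤ i * K.H := by positivity
      linarith
    · have := mul_le_mul_of_nonneg_right hi hH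
      linarith
  · have g1 : (gd K.G i : ℝ) ≤ 1048576 := by exact_mod_cast (gd_lt K.G i).le
    have g2 : (gd K.G (2 * K.M - 1 - i) : ℝ) ≤ 1048576 := by exact_mod_cast (gd_lt K.G (2 * K.M - 1 - i)).le
    have e1 : (OFF : ℝ) = 524288 := by unfold OFF; norm_num
    have e2 : (S : ℝ) = 16384 := by unfold S; norm_num
    rw [e1, e2] at h4 h5
    rw [_root_.abs_le]
    constructor <;> linarith

/-- a word leading into the invariant set shows that the point is not isolated -/
theorem near_of_mem {X : Root} {K : KD} (ha : D < X.a) (hb : D < X.b) (hK : K.ok X = true) {al be : ℝ}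
    (hp : X.In al be) (hab : 2 < al * be) (hne : al ≠ be) {w : Wd} (hw : K.Mem (yw al w) (yw be w)) :
    Near (1 / al) (1 / be) := by
  have hD := D_pos
  obtain ⟨hH, -, hM, -⟩ := KD.ok_spec hK
  have hal : 1 < al := by
    have : (D : ℝ) < X.a := by exact_mod_cast ha
    have h2 := this.trans_le hp.1
    by_contra hcon
    have := mul_le_mul_of_nonneg_right (not_lt.1 hcon) hD.le
    linarith
  have hbe : 1 < be := by
    have : (D : ℝ) < X.b := by exact_mod_cast hb
    have h2 := this.trans_le hp.2.2.1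
    by_contra hcon
    have := mul_le_mul_of_nonneg_right (not_lt.1 hcon) hD.le
    linarith
  have hY : (K.M * K.H / D : ℝ) * (al - 1) < 1 := by
    have h1 : ((K.M * K.H * (X.a + X.da - D) : ℕ) : ℝ) < ((D * D : ℕ) : ℝ) := by exact_mod_cast hM
    rw [Nat.cast_mul, Nat.cast_sub (by omega)] at h1
    push_cast at h1
    have h2 : (K.M * K.H : ℝ) * (al * D - D) ≤ K.M * K.H * (X.a + X.da - D) :=
      mul_le_mul_of_nonneg_left (by linarith [hp.2.1]) (by positivity)
    have h3 : (K.M * K.H / D : ℝ) * (al - 1) = (K.M * K.H : ℝ) * (al * D - D) / (D * D) := by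
      field_simp
    rw [h3, div_lt_one (by positivity)]
    linarith
  have hcont : Cont (1 / al) (1 / be) (yw al w) (yw be w) :=
    cont_of_inv (P := K.Mem) hal hbe (fun y v h => h.abs_le.1) (fun y v h => h.abs_le.2) hY
      (fun y v h => h.step hK (by linarith) (by linarith) hp) hw
  exact near_of_cont hal hbe hab hne (hcont.word (by linarith) (by linarith) w)

end Pool.Agent.Helper65.Conn
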