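import Pool.Agent.Helper33.Iso.Jensen

/-!
# MP_35e092_an: real digits, a double zero `z` and a zero `ρ z`; the checker for one interval of ratios `ρ`

Functional `∑ a n z^n q n`, `q n = 1 - β n + κ H n ρ`, `H n ρ = ∑ (i+1) ρ^(n-2-i) = (ρ^n - 1 + n (1-ρ)) / (1-ρ)^2`.
-/

set_option autoImplicit false

namespace Pool.Agent.Iso

/-- the divided difference of `x^n` at `ρ, 1, 1` -/
noncomputable def Hq31 (ρ : ℝ) : ℕ → ℝ
  | 0 => 0
  | n + 1 => ρ * Hq31 ρ n + n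

theorem Hq31_eq (ρ : ℝ) (n : ℕ) : (1 - ρ) ^ 2 * Hq31 ρ n = ρ ^ n - 1 + n * (1 - ρ) := by
  induction n with
  | zero => simp [Hq31]
  | succ n ih =>
    simp only [Hq31]
    push_cast
    have h : (1 - ρ) ^ 2 * (ρ * Hq31 ρ n + n) = ρ * ((1 - ρ) ^ 2 * Hq31 ρ n) + n * (1 - ρ) ^ 2 := by ring
    rw [h, ih, pow_succ]
    ring

theorem Hq31_nonneg {ρ : ℝ} (hρ : 0 ≤ ρ) (n : ℕ) : 0 ≤ Hq31 ρ n := by
  induction n with
  | zero => simp [Hq31]
  | succ n ih =>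
    simp only [Hq31]
    positivity

theorem Hq31_mono {ρ ρ' : ℝ} (hρ : 0 ≤ ρ) (h : ρ ≤ ρ') (n : ℕ) : Hq31 ρ n ≤ Hq31 ρ' n := by
  induction n with
  | zero => simp [Hq31]
  | succ n ih =>
    simp only [Hq31]
    have h1 : ρ * Hq31 ρ n ≤ ρ' * Hq31 ρ' n := mul_le_mul h ih (Hq31_nonneg hρ n) (hρ.trans h)
    linarith

theorem Hq31_le {ρ R : ℝ} (hρ : 0 ≤ ρ) (hR : 1 ≤ R) (h : ρ ≤ R) (n : ℕ) :
    Hq31 ρ n ≤ (n : ℝ) ^ 2 / 2 * R ^ n := by
  induction n with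
  | zero => simp [Hq31]
  | succ n ih =>
    simp only [Hq31]
    have h1 : ρ * Hq31 ρ n ≤ R * ((n : ℝ) ^ 2 / 2 * R ^ n) :=
      mul_le_mul h ih (Hq31_nonneg hρ n) (by linarith)
    have h2 : (1 : ℝ) ≤ R ^ (n + 1) := one_le_pow₀ hR
    have h3 : (n : ℝ) * 1 ≤ n * R ^ (n + 1) := mul_le_mul_of_nonneg_left h2 (Nat.cast_nonneg n)
    have h4 : R * ((n : ℝ) ^ 2 / 2 * R ^ n) = (n : ℝ) ^ 2 / 2 * R ^ (n + 1) := by rw [pow_succ]; ring
    push_cast
    nlinarith [h2]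

/-- the coefficients of the functional -/
noncomputable def qq31 (β κ ρ : ℝ) (n : ℕ) : ℝ := 1 - β * n + κ * Hq31 ρ n

theorem rel31 {a : ℕ → ℝ} (hb : ∀ n, |a n| ≤ 1) {z ρ β κ : ℝ} (hz : |z| < 1) (hρz : |ρ * z| < 1) (hρ : ρ ≠ 1)
    (h1 : ev a z = 0) (h2 : dv a z = 0) (h3 : κ * ev a (ρ * z) = 0) :
    HasSum (fun n => a n * z ^ n * qq31 β κ ρ n) 0 := by
  have hbs : BdSeq a := ⟨1, hb⟩
  have s1 : HasSum (fun n => a n * z ^ n) 0 := by
    have := (hbs.summable hz).hasSum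
    rwa [show (∑' n, a n * z ^ n) = 0 from h1] at this
  have s2 : HasSum (fun n : ℕ => (n : ℝ) * a n * z ^ n) 0 := by
    have := (hbs.summable_dv hz).hasSum
    rwa [show (∑' n : ℕ, (n : ℝ) * a n * z ^ n) = 0 from h2] at this
  have s3 : HasSum (fun n => κ * (a n * (ρ * z) ^ n)) 0 := by
    have := (hbs.summable hρz).hasSum.mul_left κ
    rwa [show κ * (∑' n, a n * (ρ * z) ^ n) = 0 from h3] at this
  have hne : (1 - ρ) ≠ 0 := sub_ne_zero.2 (Ne.symm hρ)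
  have s4 := ((s1.mul_left (1 - κ / (1 - ρ) ^ 2)).add (s2.mul_left (κ / (1 - ρ) - β))).add
    (s3.mul_left (1 / (1 - ρ) ^ 2))
  simp only [mul_zero, add_zero] at s4
  refine (congrArg (fun F : ℕ → ℝ => HasSum F 0) ?_).mpr s4
  funext n
  have hH : Hq31 ρ n = (ρ ^ n - 1 + n * (1 - ρ)) / (1 - ρ) ^ 2 := by
    rw [eq_div_iff (pow_ne_zero 2 hne), mul_comm]
    exact Hq31_eq ρ n
  unfold qq31
  rw [hH, mul_pow]
  field_simp
  ring

/-- the tail -/
theorem tail31 {x : ℝ} (hx0 : 0 ≤ x) (hx : x ≤ 8 / 9) (k : ℕ) :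
    x ^ (200 + k) * ((200 + k : ℕ) : ℝ) ^ 2 ≤ 1 / 100001 * (9 / 10) ^ k := by
  have h1 : x ^ (200 + k) ≤ (8 / 9 : ℝ) ^ (200 + k) := pow_le_pow_left₀ hx0 hx _
  have h2 : (8 / 9 : ℝ) ^ (200 + k) * ((200 + k : ℕ) : ℝ) ^ 2 ≤ 1 / 100001 * (9 / 10) ^ k := by
    induction k with
    | zero => norm_num
    | succ k ih =>
      have h3 := ih (pow_le_pow_left₀ hx0 hx _)
      have h4 : (8 / 9 : ℝ) * ((200 + (k + 1) : ℕ) : ℝ) ^ 2 ≤ 9 / 10 * ((200 + k : ℕ) : ℝ) ^ 2 := by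
        push_cast
        have h5 : (0 : ℝ) ≤ (k : ℝ) := Nat.cast_nonneg k
        nlinarith
      rw [show 200 + (k + 1) = (200 + k) + 1 by ring, pow_succ, pow_succ]
      rw [show 200 + (k + 1) = (200 + k) + 1 by ring] at h4
      calc (8 / 9 : ℝ) ^ (200 + k) * (8 / 9) * (((200 + k) + 1 : ℕ) : ℝ) ^ 2
          = (8 / 9 : ℝ) ^ (200 + k) * (8 / 9 * (((200 + k) + 1 : ℕ) : ℝ) ^ 2) := by ring
        _ ≤ (8 / 9 : ℝ) ^ (200 + k) * (9 / 10 * ((200 + k : ℕ) : ℝ) ^ 2) :=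
            mul_le_mul_of_nonneg_left h4 (by positivity)
        _ = (8 / 9 : ℝ) ^ (200 + k) * ((200 + k : ℕ) : ℝ) ^ 2 * (9 / 10) := by ring
        _ ≤ 1 / 100001 * (9 / 10) ^ k * (9 / 10) := mul_le_mul_of_nonneg_right h3 (by norm_num)
        _ = _ := by ring
  exact (mul_le_mul_of_nonneg_right h1 (by positivity)).trans h2

/-- the sum argument -/
theorem sum31 {f m : ℕ → ℝ} (hf : HasSum f 0) (h0 : f 0 = 1) (hm : ∀ n, n < 199 → |f (n + 1)| ≤ m n)
    (ht : ∀ k : ℕ, |f (200 + k)| ≤ 1 / 100001 * (9 / 10) ^ k)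
    (hs : ∑ n ∈ Finset.range 199, m n ≤ 9999 / 10000) : False := by
  have hg : HasSum (fun k : ℕ => (9 / 10 : ℝ) ^ k) 10 := by
    have := hasSum_geometric_of_lt_one (r := (9 / 10 : ℝ)) (by norm_num) (by norm_num)
    rwa [show ((1 : ℝ) - 9 / 10)⁻¹ = 10 by norm_num] at this
  have h1 := (hasSum_nat_add_iff' 200).2 hf
  rw [zero_sub] at h1
  have h2 : |(-∑ i ∈ Finset.range 200, f i)| ≤ 1 / 100001 * 10 := by
    have h3 := hg.mul_left (1 / 100001)
    have h4 : ∀ n : ℕ, ‖f (n + 200)‖ ≤ 1 / 100001 * (9 / 10) ^ n := by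
      intro n
      rw [Real.norm_eq_abs, add_comm]
      exact ht n
    have h5 := h3.summable
    have h6 := tsum_of_norm_bounded h3 h4
    rw [h1.tsum_eq, Real.norm_eq_abs] at h6
    exact h6
  rw [abs_neg, Finset.sum_range_succ', h0] at h2
  have h3 : |∑ n ∈ Finset.range 199, f (n + 1)| ≤ 9999 / 10000 := by
    refine (Finset.abs_sum_le_sum_abs _ _).trans (le_trans ?_ hs)
    exact Finset.sum_le_sum fun n hn => hm n (Finset.mem_range.1 hn)
  have h4 := (abs_le.1 h3).1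
  have h5 := (abs_le.1 h2).2
  norm_num at h4 h5
  linarith

/-! ### The checker.  Denominators: `10000` for `ρ`, `A`, `β`, `100000` for `κ`. -/

/-- `10000^n * H n (r/10000)` -/
def hN31 (r n : ℕ) : ℕ :=
  bif Nat.blt r 10000 then
    (n * (10000 - r) * 10000 ^ (n + 1) + 10000 ^ 2 * r ^ n - 10000 ^ (n + 2)) / (10000 - r) ^ 2
  else (10000 ^ 2 * r ^ n - (10000 ^ (n + 2) + n * (r - 10000) * 10000 ^ (n + 1))) / (r - 10000) ^ 2

/-- absolute difference -/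
def ad31 (p q : ℕ) : ℕ := (p - q) + (q - p)

/-- maximum -/
def mx31 (p q : ℕ) : ℕ := bif Nat.ble p q then q else p

/-- `100000 * 10000^n * |q n|` -/
def qN31 (b k r n : ℕ) : ℕ := ad31 (100000 * 10000 ^ n + k * hN31 r n) (10 * b * n * 10000 ^ n)

/-- partial sums, `100000 * 10000^400 * ∑_{n < j}` -/
def tot31 (r1 r2 A b k : ℕ) : ℕ → ℕ
  | 0 => 0
  | j + 1 => tot31 r1 r2 A b k j +
      A ^ (j + 1) * mx31 (qN31 b k r1 (j + 1)) (qN31 b k r2 (j + 1)) * 10000 ^ (2 * (199 - j))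

/-- the check for one row -/
def chk31 (r1 r2 A b k : ℕ) : Bool :=
  Nat.ble (tot31 r1 r2 A b k 199 * 10000) (100000 * 10000 ^ 400 * 9999) &&
  Nat.ble (9 * A * mx31 10000 r2) (8 * 10000 * 10000) && Nat.ble b 10000 && Nat.ble k 100000 &&
  Nat.ble r1 r2 && decide (r1 ≠ 10000) && decide (r2 ≠ 10000)

/-- the recursive form of `hN31` -/
def hR31 (r : ℕ) : ℕ → ℕ
  | 0 => 0
  | n + 1 => r * hR31 r n + n * 10000 ^ (n + 1)

theorem hR31_cast (r n : ℕ) : (hR31 r n : ℝ) = 10000 ^ n * Hq31 ((r : ℝ) / 10000) n := by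
  induction n with
  | zero => simp [hR31, Hq31]
  | succ n ih =>
    simp only [hR31, Hq31]
    push_cast
    rw [ih, pow_succ]
    field_simp

theorem hN31_eq {r : ℕ} (hr : r ≠ 10000) (n : ℕ) : hN31 r n = hR31 r n := by
  have key : ((10000 : ℝ) - r) ^ 2 * (hR31 r n : ℝ) =
      10000 ^ 2 * (r : ℝ) ^ n - 10000 ^ (n + 2) + n * (10000 - r) * 10000 ^ (n + 1) := by
    rw [hR31_cast]
    have h1 := Hq31_eq ((r : ℝ) / 10000) n
    have h2 : ((10000 : ℝ) - r) ^ 2 * (10000 ^ n * Hq31 ((r : ℝ) / 10000) n) =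
        10000 ^ (n + 2) * ((1 - (r : ℝ) / 10000) ^ 2 * Hq31 ((r : ℝ) / 10000) n) := by
      have e : (1 - (r : ℝ) / 10000) ^ 2 = ((10000 : ℝ) - r) ^ 2 / 10000 ^ 2 := by
        field_simp
      rw [e, pow_add]
      field_simp
    rw [h2, h1, div_pow]
    rw [pow_add, pow_succ]
    field_simp
    ring
  unfold hN31
  rcases Nat.lt_or_ge r 10000 with h | h
  · have hb : Nat.blt r 10000 = true := by
      rw [Nat.blt_eq]
      exact h
    rw [hb, cond_true]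
    have hpos : 0 < (10000 - r) ^ 2 := pow_pos (by omega) 2
    have h1 : n * (10000 - r) * 10000 ^ (n + 1) + 10000 ^ 2 * r ^ n =
        (10000 - r) ^ 2 * hR31 r n + 10000 ^ (n + 2) := by
      have h2 : ((n * (10000 - r) * 10000 ^ (n + 1) + 10000 ^ 2 * r ^ n : ℕ) : ℝ) =
          (((10000 - r) ^ 2 * hR31 r n + 10000 ^ (n + 2) : ℕ) : ℝ) := by
        push_cast [Nat.cast_sub h.le]
        rw [key]
        ring
      exact_mod_cast h2
    rw [h1, Nat.add_sub_cancel, Nat.mul_div_cancel_left _ hpos]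
  · have hgt : 10000 < r := lt_of_le_of_ne h (Ne.symm hr)
    have hb : Nat.blt r 10000 = false := by
      rw [Bool.eq_false_iff]
      intro h2
      rw [Nat.blt_eq] at h2
      omega
    rw [hb, cond_false]
    have hpos : 0 < (r - 10000) ^ 2 := pow_pos (by omega) 2
    have h1 : 10000 ^ 2 * r ^ n =
        (r - 10000) ^ 2 * hR31 r n + (10000 ^ (n + 2) + n * (r - 10000) * 10000 ^ (n + 1)) := by
      have h2 : ((10000 ^ 2 * r ^ n : ℕ) : ℝ) = (((r - 10000) ^ 2 * hR31 r n +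
          (10000 ^ (n + 2) + n * (r - 10000) * 10000 ^ (n + 1)) : ℕ) : ℝ) := by
        push_cast [Nat.cast_sub hgt.le]
        have e : ((r : ℝ) - 10000) ^ 2 = (10000 - r) ^ 2 := by ring
        rw [e, key]
        ring
      exact_mod_cast h2
    rw [h1, Nat.add_sub_cancel, Nat.mul_div_cancel_left _ hpos]

theorem ad31_cast (p q : ℕ) : (ad31 p q : ℝ) = |(p : ℝ) - q| := by
  unfold ad31
  rcases le_total p q with h | h
  · rw [Nat.sub_eq_zero_of_le h, zero_add, Nat.cast_sub h, abs_sub_comm, abs_of_nonneg]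
    exact sub_nonneg.2 (by exact_mod_cast h)
  · rw [Nat.sub_eq_zero_of_le h, add_zero, Nat.cast_sub h, abs_of_nonneg]
    exact sub_nonneg.2 (by exact_mod_cast h)

theorem mx31_eq (p q : ℕ) : mx31 p q = max p q := by
  unfold mx31
  rcases le_total p q with h | h
  · have : Nat.ble p q = true := Nat.ble_eq_true_of_le h
    rw [this, cond_true, max_eq_right h]
  · rcases eq_or_lt_of_le h with h2 | h2
    · subst h2
      cases Nat.ble q q <;> simp
    · have : Nat.ble p q = false := by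
        rw [Bool.eq_false_iff]
        intro h3
        rw [Nat.ble_eq] at h3
        omega
      rw [this, cond_false, max_eq_left h]

theorem qN31_cast {r : ℕ} (hr : r ≠ 10000) (b k n : ℕ) :
    (qN31 b k r n : ℝ) = 100000 * 10000 ^ n * |qq31 ((b : ℝ) / 10000) ((k : ℝ) / 100000) ((r : ℝ) / 10000) n| := by
  unfold qN31
  rw [ad31_cast, hN31_eq hr]
  have h1 : (0 : ℝ) < 100000 * 10000 ^ n := by positivity
  rw [← abs_of_pos h1, ← abs_mul]
  congr 1
  push_cast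
  rw [hR31_cast]
  unfold qq31
  field_simp
  ring

theorem tot31_cast {r1 r2 : ℕ} (h1 : r1 ≠ 10000) (h2 : r2 ≠ 10000) (A b k : ℕ) : ∀ j, j ≤ 199 →
    (tot31 r1 r2 A b k j : ℝ) = 100000 * 10000 ^ 400 * ∑ n ∈ Finset.range j, ((A : ℝ) / 10000) ^ (n + 1) *
      max |qq31 ((b : ℝ) / 10000) ((k : ℝ) / 100000) ((r1 : ℝ) / 10000) (n + 1)|
        |qq31 ((b : ℝ) / 10000) ((k : ℝ) / 100000) ((r2 : ℝ) / 10000) (n + 1)| := by
  intro j
  induction j with
  | zero => intro _; simp [tot31]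
  | succ j ih =>
    intro hj
    simp only [tot31]
    rw [Finset.sum_range_succ]
    push_cast
    rw [ih (by omega), mx31_eq, Nat.cast_max, qN31_cast h1, qN31_cast h2, mul_add]
    congr 1
    rw [← mul_max_of_nonneg _ _ (by positivity : (0 : ℝ) ≤ 100000 * 10000 ^ (j + 1)), div_pow]
    have e : (10000 : ℝ) ^ 400 = 10000 ^ (j + 1) * 10000 ^ (j + 1) * 10000 ^ (2 * (199 - j)) := by
      rw [← pow_add, ← pow_add]
      congr 1
      omega
    rw [e]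
    field_simp

theorem excl31 {r1 r2 A b k : ℕ} (hc : chk31 r1 r2 A b k = true) {a : ℕ → ℝ} (h0 : a 0 = 1)
    (hb : ∀ n, |a n| ≤ 1) {z ρ : ℝ} (hz : 0 < z) (hzA : z ≤ (A : ℝ) / 10000) (hρ0 : 0 ≤ ρ)
    (hρ1 : (r1 : ℝ) / 10000 ≤ ρ) (hρ2 : ρ ≤ (r2 : ℝ) / 10000) (hρ : ρ ≠ 1) (hz1 : z < 1) (hρz : ρ * z < 1)
    (h1 : ev a z = 0) (h2 : dv a z = 0) (h3 : (k : ℝ) * ev a (ρ * z) = 0) : False := by
  unfold chk31 at hc
  simp only [Bool.and_eq_true, Nat.ble_eq, decide_eq_true_eq] at hc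
  obtain ⟨⟨⟨⟨⟨⟨c1, c2⟩, c3⟩, c4⟩, c5⟩, c6⟩, c7⟩ := hc
  have hrel := rel31 (β := (b : ℝ) / 10000) (κ := (k : ℝ) / 100000) hb (by rwa [abs_of_pos hz])
    (by rwa [abs_of_nonneg (mul_nonneg hρ0 hz.le)]) hρ h1 h2 (by
      rw [div_mul_eq_mul_div, h3, zero_div])
  set β : ℝ := (b : ℝ) / 10000 with hβ
  set κ : ℝ := (k : ℝ) / 100000 with hκ
  have hβ0 : 0 ≤ β := by positivity
  have hκ0 : 0 ≤ κ := by positivity
  have hβ1 : β ≤ 1 := by
    rw [hβ, div_le_one (by norm_num)]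
    exact_mod_cast c3
  have hκ1 : κ ≤ 1 := by
    rw [hκ, div_le_one (by norm_num)]
    exact_mod_cast c4
  refine sum31 (m := fun n => ((A : ℝ) / 10000) ^ (n + 1) *
      max |qq31 β κ ((r1 : ℝ) / 10000) (n + 1)| |qq31 β κ ((r2 : ℝ) / 10000) (n + 1)|) hrel ?_ ?_ ?_ ?_
  · simp [h0, qq31, Hq31]
  · intro n _
    rw [abs_mul, abs_mul, abs_pow, abs_of_pos hz]
    have h4 : |a (n + 1)| * z ^ (n + 1) ≤ 1 * ((A : ℝ) / 10000) ^ (n + 1) :=
      mul_le_mul (hb _) (pow_le_pow_left₀ hz.le hzA _) (by positivity) zero_le_one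
    rw [one_mul] at h4
    have h5 : |qq31 β κ ρ (n + 1)| ≤
        max |qq31 β κ ((r1 : ℝ) / 10000) (n + 1)| |qq31 β κ ((r2 : ℝ) / 10000) (n + 1)| := by
      refine abs_le_max_abs_abs ?_ ?_
      · unfold qq31
        have := mul_le_mul_of_nonneg_left (Hq31_mono (by positivity) hρ1 (n + 1)) hκ0
        linarith
      · unfold qq31
        have := mul_le_mul_of_nonneg_left (Hq31_mono hρ0 hρ2 (n + 1)) hκ0
        linarith
    exact mul_le_mul h4 h5 (abs_nonneg _) (by positivity)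
  · intro j
    set R : ℝ := max 1 ((r2 : ℝ) / 10000) with hR
    have hR1 : 1 ≤ R := le_max_left _ _
    have hρR : ρ ≤ R := hρ2.trans (le_max_right _ _)
    have hx : z * R ≤ 8 / 9 := by
      rw [mx31_eq] at c2
      have c2' : (9 : ℝ) * A * max 10000 (r2 : ℝ) ≤ 8 * 10000 * 10000 := by exact_mod_cast c2
      have e : R = max 10000 (r2 : ℝ) / 10000 := by
        rw [hR, ← max_div_div_right (by norm_num : (0 : ℝ) ≤ 10000)]
        norm_num
      rw [e]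
      have h6 : z * (max 10000 (r2 : ℝ) / 10000) ≤ (A : ℝ) / 10000 * (max 10000 (r2 : ℝ) / 10000) :=
        mul_le_mul_of_nonneg_right hzA (by positivity)
      refine h6.trans ?_
      rw [div_mul_div_comm, div_le_div_iff₀ (by norm_num) (by norm_num)]
      linarith
    refine le_trans ?_ (tail31 (by positivity) hx j)
    set n := 200 + j with hn
    have hn3 : (3 : ℝ) ≤ n := by
      have : 3 ≤ n := by omega
      exact_mod_cast this
    rw [abs_mul, abs_mul, abs_pow, abs_of_pos hz, mul_pow]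
    have h4 : |a n| * z ^ n ≤ 1 * z ^ n := mul_le_mul_of_nonneg_right (hb _) (by positivity)
    rw [one_mul] at h4
    have hRn : 1 ≤ R ^ n := one_le_pow₀ hR1
    have h5 : |qq31 β κ ρ n| ≤ R ^ n * (n : ℝ) ^ 2 := by
      unfold qq31
      have e1 := Hq31_le hρ0 hR1 hρR n
      have e2 := Hq31_nonneg hρ0 n
      have e3 : κ * Hq31 ρ n ≤ 1 * ((n : ℝ) ^ 2 / 2 * R ^ n) := mul_le_mul hκ1 e1 e2 zero_le_one
      have e4 : 0 ≤ κ * Hq31 ρ n := mul_nonneg hκ0 e2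
      have e5 : β * n ≤ 1 * n := mul_le_mul_of_nonneg_right hβ1 (by linarith)
      have e6 : 0 ≤ β * n := mul_nonneg hβ0 (by linarith)
      have e7 : (n : ℝ) * 1 ≤ n * R ^ n := mul_le_mul_of_nonneg_left hRn (by linarith)
      have e8 : (1 + (n : ℝ)) * R ^ n ≤ (n : ℝ) ^ 2 / 2 * R ^ n :=
        mul_le_mul_of_nonneg_right (by nlinarith) (by positivity)
      rw [abs_le]
      constructor
      · nlinarith
      · nlinarith
    calc |a n| * z ^ n * |qq31 β κ ρ n| ≤ z ^ n * (R ^ n * (n : ℝ) ^ 2) :=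
          mul_le_mul h4 h5 (abs_nonneg _) (by positivity)
      _ = z ^ n * R ^ n * (n : ℝ) ^ 2 := by ring
  · have h4 := tot31_cast c6 c7 A b k 199 le_rfl
    have h5 : (tot31 r1 r2 A b k 199 : ℝ) * 10000 ≤ 100000 * 10000 ^ 400 * 9999 := by exact_mod_cast c1
    rw [h4] at h5
    have h6 : (0 : ℝ) < 100000 * 10000 ^ 400 := by positivity
    rw [le_div_iff₀ (by norm_num)]
    have h7 : (100000 * 10000 ^ 400 : ℝ) * ((∑ n ∈ Finset.range 199, ((A : ℝ) / 10000) ^ (n + 1) *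
        max |qq31 β κ ((r1 : ℝ) / 10000) (n + 1)| |qq31 β κ ((r2 : ℝ) / 10000) (n + 1)|) * 10000) ≤
        (100000 * 10000 ^ 400) * 9999 := by
      rw [← mul_assoc]
      exact h5
    exact le_of_mul_le_mul_left h7 h6

end Pool.Agent.Iso
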